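import Pool.Agent.J6H36.BSV.Over

/-!
# The algebraic closure of `k(X)` in `Ω`
-/

set_option autoImplicit false

universe u w

namespace Pool.Agent.J6H36.BSV

section KK

variable (k : Type u) {Ω : Type u} [Field k] [Field Ω] [Algebra k Ω]

/-- the algebraic closure of `k(X)` in `Ω` -/
noncomputable def KK (X : Set Ω) : IntermediateField k Ω :=
  (algebraicClosure (IntermediateField.adjoin k X) Ω).restrictScalars k

theorem mem_KK (X : Set Ω) (z : Ω) : z ∈ KK k X ↔ IsAlgebraic (Algebra.adjoin k X) z := by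
  have h1 : z ∈ KK k X ↔ IsAlgebraic (IntermediateField.adjoin k X) z :=
    mem_algebraicClosure_iff
  rw [h1]
  open scoped IntermediateField.algebraAdjoinAdjoin in
  exact (IsFractionRing.isAlgebraic_iff (Algebra.adjoin k X) (IntermediateField.adjoin k X) Ω).symm

instance instIsAlgClosedKK [IsAlgClosed Ω] (X : Set Ω) : IsAlgClosed (KK k X) :=
  IsAlgClosure.isAlgClosed (IntermediateField.adjoin k X)
    (K := algebraicClosure (IntermediateField.adjoin k X) Ω)

theorem subset_KK (X : Set Ω) : X ⊆ KK k X := by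
  intro z hz
  change z ∈ KK k X
  rw [mem_KK]
  exact isAlgebraic_algebraMap (⟨z, Algebra.subset_adjoin hz⟩ : Algebra.adjoin k X)

theorem adjoin_le_KK (X : Set Ω) : Algebra.adjoin k X ≤ (KK k X).toSubalgebra :=
  Algebra.adjoin_le (subset_KK k X)

/-- algebraic over `KK` implies algebraic over the generators -/
theorem alg_of_KK (X : Set Ω) {z : Ω} (hz : IsAlgebraic (KK k X) z) :
    IsAlgebraic (Algebra.adjoin k X) z :=
  alg_trans (R := Algebra.adjoin k X) (S := KK k X) Subtype.val_injective Subtype.val_injective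
    (fun s => (mem_KK k X (s : Ω)).mp s.2) hz

theorem KK_le (X : Set Ω) (Y : Set Ω) (h : X ⊆ KK k Y) : KK k X ≤ KK k Y := by
  intro z hz
  rw [mem_KK] at hz ⊢
  apply alg_of_KK
  have hle : Algebra.adjoin k X ≤ (KK k Y).toSubalgebra := Algebra.adjoin_le h
  exact alg_of_subset (fun r => ⟨⟨r, hle r.2⟩, rfl⟩) Subtype.val_injective Subtype.val_injective hz

theorem KK_mono {X Y : Set Ω} (h : X ⊆ Y) : KK k X ≤ KK k Y :=
  KK_le k X Y (h.trans (subset_KK k Y))

theorem alg_adjoin_mono {X Y : Set Ω} (h : X ⊆ Y) {z : Ω} (hz : IsAlgebraic (Algebra.adjoin k X) z) :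
    IsAlgebraic (Algebra.adjoin k Y) z := by
  have := KK_mono k h ((mem_KK k X z).mpr hz)
  rwa [mem_KK] at this

theorem mem_adjoin_tower (K : IntermediateField k Ω) (X : Set Ω) (hX : X ⊆ K) (b : Ω) (r : Ω)
    (hr : r ∈ Algebra.adjoin k (insert b X)) : r ∈ Algebra.adjoin K ({b} : Set Ω) := by
  induction hr using Algebra.adjoin_induction with
  | mem x hx =>
    rcases hx with hx | hx
    · exact Algebra.subset_adjoin hx
    · exact (Algebra.adjoin K ({b} : Set Ω)).algebraMap_mem ⟨x, hX hx⟩
  | algebraMap c => exact (Algebra.adjoin K ({b} : Set Ω)).algebraMap_mem (algebraMap k K c)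
  | add x y _ _ hx hy => exact Subalgebra.add_mem _ hx hy
  | mul x y _ _ hx hy => exact Subalgebra.mul_mem _ hx hy

theorem mem_KK_tower (K : IntermediateField k Ω) (X : Set Ω) (hX : X ⊆ K) (b : Ω) (z : Ω)
    (hz : z ∈ KK k (insert b X)) : z ∈ KK K ({b} : Set Ω) := by
  rw [mem_KK] at hz ⊢
  exact alg_of_subset (R := Algebra.adjoin k (insert b X)) (S := Algebra.adjoin K ({b} : Set Ω))
    (fun r => ⟨⟨r, mem_adjoin_tower k K X hX b r r.2⟩, rfl⟩) Subtype.val_injective
    Subtype.val_injective hz

theorem alg_tower (K : IntermediateField k Ω) (X : Set Ω)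
    (hK : ∀ z ∈ K, IsAlgebraic (Algebra.adjoin k X) z) (b s : Ω)
    (h : IsAlgebraic (Algebra.adjoin K ({b} : Set Ω)) s) :
    IsAlgebraic (Algebra.adjoin k (insert b X)) s := by
  refine alg_trans (R := Algebra.adjoin k (insert b X)) (S := Algebra.adjoin K ({b} : Set Ω))
    Subtype.val_injective Subtype.val_injective (fun r => ?_) h
  change IsAlgebraic _ (r : Ω)
  have h7 : ∀ r ∈ Algebra.adjoin K ({b} : Set Ω),
      r ∈ Subalgebra.algebraicClosure (Algebra.adjoin k (insert b X)) Ω := by
    intro r hr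
    induction hr using Algebra.adjoin_induction with
    | mem x hx =>
      rw [Set.mem_singleton_iff] at hx
      subst hx
      exact isAlgebraic_algebraMap (⟨x, Algebra.subset_adjoin (Set.mem_insert _ _)⟩ :
        Algebra.adjoin k (insert x X))
    | algebraMap c =>
      exact alg_adjoin_mono k (Set.subset_insert b X) (hK (c : Ω) c.2)
    | add x y _ _ hx hy => exact Subalgebra.add_mem _ hx hy
    | mul x y _ _ hx hy => exact Subalgebra.mul_mem _ hx hy
  exact h7 r r.2

end KK

end Pool.Agent.J6H36.BSV
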