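import Pool.Agent.J6H36.BSV.Two
import Pool.Agent.J6H36.BSV.KK

/-!
# Finite-dimensional cokernel: the general case
-/

set_option autoImplicit false

universe u w

namespace Pool.Agent.J6H36.BSV

variable (T : Theory.{u}) (i : ℤ) (n : ℕ)


/-- `two` for the algebraic closure of `k(b)` -/
theorem two' (hI : S_INT.{u}) (hS : S_SPEC.{u}) (hTor : S_TOR.{u}) (hAut : S_AUT.{u})
    {k Ω : Type u} [Field k] [Field Ω] [Algebra k Ω] [IsAlgClosed k] [IsAlgClosed Ω]
    [FiniteDimensional ℚ (T.H i n Ω ⧸ LinearMap.range (T.map i n (algebraMap k Ω)))]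
    (b s : Ω) (hb : Transcendental k b) (hs : Transcendental (Algebra.adjoin k ({b} : Set Ω)) s) :
    Over T i n (KK k ({b} : Set Ω)).toSubring ≤ LinearMap.range (T.map i n (algebraMap k Ω)) :=
  two T i n hI hS hTor hAut (KK k ({b} : Set Ω)) b
    (subset_KK k _ (Set.mem_singleton _)) (fun z hz => (mem_KK k _ z).mp hz) hb s
    (fun h => hs (alg_of_KK k _ h))

/-- The finite law: if `H(Ω)/H(k)` is finite-dimensional and `Ω` is not algebraic over `k(t)` then the
classes over the algebraic closure of `k(t)` are defined over `k`. -/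
theorem fin_law (hI : S_INT.{u}) (hS : S_SPEC.{u}) (hTor : S_TOR.{u}) (hAut : S_AUT.{u})
    {k Ω : Type u} [Field k] [Field Ω] [Algebra k Ω] [IsAlgClosed k] [IsAlgClosed Ω]
    [FiniteDimensional ℚ (T.H i n Ω ⧸ LinearMap.range (T.map i n (algebraMap k Ω)))]
    (s : Ω) (t : Finset Ω) : Transcendental (Algebra.adjoin k (t : Set Ω)) s →
    Over T i n (KK k (t : Set Ω)).toSubring ≤ LinearMap.range (T.map i n (algebraMap k Ω)) := by
  classical
  induction t using Finset.induction_on with
  | empty =>
    intro _
    rw [← Over_range T i n (algebraMap k Ω) (algebraMap k Ω).injective]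
    apply Over_mono
    intro z hz
    have hz1 : IsAlgebraic (Algebra.adjoin k ((∅ : Finset Ω) : Set Ω)) z := (mem_KK k _ z).mp hz
    have hz2 : IsAlgebraic k z := by
      refine alg_trans (algebraMap k Ω).injective Subtype.val_injective (fun s => ?_) hz1
      have hs : (s : Ω) ∈ Algebra.adjoin k (∅ : Set Ω) := by
        rw [← Finset.coe_empty]
        exact s.2
      rw [Algebra.adjoin_empty, Algebra.mem_bot] at hs
      obtain ⟨c, hc⟩ := hs
      change IsAlgebraic k (s : Ω)
      rw [← hc]
      exact isAlgebraic_algebraMap c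
    have h3 : z ∈ algebraicClosure k Ω := mem_algebraicClosure_iff.mpr hz2
    rw [(IsAlgClosed.algebraicClosure_eq_bot_iff k Ω).mpr inferInstance] at h3
    obtain ⟨c, hc⟩ := IntermediateField.mem_bot.mp h3
    exact ⟨c, hc⟩
  | insert b t hbt ih =>
    intro hs
    have hsub : (t : Set Ω) ⊆ ((insert b t : Finset Ω) : Set Ω) := by
      rw [Finset.coe_insert]
      exact Set.subset_insert _ _
    have hst : Transcendental (Algebra.adjoin k (t : Set Ω)) s :=
      fun h => hs (alg_adjoin_mono k hsub h)
    have ih1 := ih hst
    have hR1 : LinearMap.range (T.map i n (algebraMap (KK k (t : Set Ω)) Ω)) =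
        Over T i n (KK k (t : Set Ω)).toSubring := by
      rw [← Over_range T i n (algebraMap (KK k (t : Set Ω)) Ω)
        (algebraMap (KK k (t : Set Ω)) Ω).injective]
      congr 1
      ext z
      constructor
      · rintro ⟨y, rfl⟩
        exact y.2
      · intro hz
        exact ⟨⟨z, hz⟩, rfl⟩
    have hR2 : LinearMap.range (T.map i n (algebraMap k Ω)) ≤
        LinearMap.range (T.map i n (algebraMap (KK k (t : Set Ω)) Ω)) := by
      rintro _ ⟨y, rfl⟩
      refine ⟨T.map i n (algebraMap k (KK k (t : Set Ω))) y, ?_⟩
      rw [← T.map_comp]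
      rfl
    have hR3 : LinearMap.range (T.map i n (algebraMap (KK k (t : Set Ω)) Ω)) =
        LinearMap.range (T.map i n (algebraMap k Ω)) := le_antisymm (hR1 ▸ ih1) hR2
    by_cases hb : b ∈ KK k (t : Set Ω)
    · refine le_trans (Over_mono T i n ?_) ih1
      have : KK k ((insert b t : Finset Ω) : Set Ω) ≤ KK k (t : Set Ω) := by
        apply KK_le
        rw [Finset.coe_insert]
        intro z hz
        rcases hz with rfl | hz
        · exact hb
        · exact subset_KK k _ hz
      exact fun z hz => this hz
    · have hfd : FiniteDimensional ℚ (T.H i n Ω ⧸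
          LinearMap.range (T.map i n (algebraMap (KK k (t : Set Ω)) Ω))) := by
        rw [hR3]
        infer_instance
      have hbtr : Transcendental (KK k (t : Set Ω)) b := by
        intro h
        apply hb
        rw [mem_KK]
        exact alg_of_KK k _ h
      have hle : Over T i n (KK k ((insert b t : Finset Ω) : Set Ω)).toSubring ≤
          Over T i n (KK (KK k (t : Set Ω)) ({b} : Set Ω)).toSubring := by
        apply Over_mono
        intro z hz
        have hz' : z ∈ KK k (insert b (t : Set Ω)) := by
          rw [← Finset.coe_insert]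
          exact hz
        exact mem_KK_tower k (KK k (t : Set Ω)) (t : Set Ω) (subset_KK k _) b z hz'
      refine le_trans hle ?_
      rw [← hR3]
      refine two' T i n hI hS hTor hAut b s hbtr ?_
      intro h
      apply hs
      rw [Finset.coe_insert]
      exact alg_tower k (KK k (t : Set Ω)) (t : Set Ω) (fun z hz => (mem_KK k _ z).mp hz) b s h

end Pool.Agent.J6H36.BSV
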