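import Mathlib

/-!
# Rational motivic cohomology of rings and fields: the published properties, and the modules of project BSV

Project BSV (helper36), hard problem MP_e2821c_ag (Beilinson-Soulé vanishing).
`Theory` lists published properties of the groups `H^i(R, ℚ(n)) = K_{2n-i}(R)_ℚ^{(n)}` (weight `n` part
of the rational algebraic K-theory of a commutative ring `R`).  The statements `S_...` are the modules.
-/

set_option autoImplicit false

universe u w

namespace Pool.Agent.J6H36.BSV

open Cardinal

/-- A theory of rational motivic cohomology of commutative rings. -/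
structure Theory where
  /-- the groups `H^i(R, ℚ(n))` -/
  H : ℤ → ℕ → (R : Type u) → [CommRing R] → ModuleCat.{u} ℚ
  /-- functoriality -/
  map : ∀ (i : ℤ) (n : ℕ) {R S : Type u} [CommRing R] [CommRing S],
    (R →+* S) → (H i n R →ₗ[ℚ] H i n S)
  map_id : ∀ (i : ℤ) (n : ℕ) (R : Type u) [CommRing R] (x : H i n R),
    map i n (RingHom.id R) x = x
  map_comp : ∀ (i : ℤ) (n : ℕ) {R S U : Type u} [CommRing R] [CommRing S] [CommRing U]
    (f : R →+* S) (g : S →+* U) (x : H i n R), map i n (g.comp f) x = map i n g (map i n f x)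
  /-- every class is defined over a finitely generated subring -/
  lift : ∀ (i : ℤ) (n : ℕ) (R : Type u) [CommRing R] (x : H i n R), ∃ (t : Finset R)
    (y : H i n (Subring.closure (t : Set R))), map i n (Subring.closure (t : Set R)).subtype y = x
  /-- a class over a finitely generated subring which vanishes over `R` vanishes over a larger
  finitely generated subring -/
  ker : ∀ (i : ℤ) (n : ℕ) (R : Type u) [CommRing R] (t : Finset R)
    (y : H i n (Subring.closure (t : Set R))), map i n (Subring.closure (t : Set R)).subtype y = 0 →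
    ∃ (t' : Finset R) (h : Subring.closure (t : Set R) ≤ Subring.closure (t' : Set R)),
      map i n (Subring.inclusion h) y = 0
  /-- a finite extension of fields induces an injective map (transfer) -/
  fin : ∀ (i : ℤ) (n : ℕ) (F K : Type u) [Field F] [Field K] [Algebra F K] [FiniteDimensional F K],
    Function.Injective (map i n (algebraMap F K))
  /-- the product with the class of `t - a` in `H^1(F(t), ℚ(1))` -/
  cup : ∀ (i : ℤ) (n : ℕ) (F : Type u) [Field F], F → (H i n F →ₗ[ℚ] H (i + 1) (n + 1) (RatFunc F))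
  /-- the residue at the point `t = a` -/
  res : ∀ (i : ℤ) (n : ℕ) (F : Type u) [Field F], F → (H (i + 1) (n + 1) (RatFunc F) →ₗ[ℚ] H i n F)
  res_cup_self : ∀ (i : ℤ) (n : ℕ) (F : Type u) [Field F] (a : F) (x : H i n F),
    res i n F a (cup i n F a x) = x
  res_cup_ne : ∀ (i : ℤ) (n : ℕ) (F : Type u) [Field F] (a b : F) (x : H i n F), a ≠ b →
    res i n F a (cup i n F b x) = 0
  /-- the residue of a constant class vanishes -/
  res_const : ∀ (i : ℤ) (n : ℕ) (F : Type u) [Field F] (a : F) (y : H (i + 1) (n + 1) F),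
    res i n F a (map (i + 1) (n + 1) (algebraMap F (RatFunc F)) y) = 0
  /-- the vanishing for the fields which are algebraic over a prime field -/
  base : ∀ (i : ℤ) (n : ℕ) (P : Type) [Field P] (F : Type u) [Field F] [Algebra P F]
    [Algebra.IsAlgebraic P F], (⊥ : Subfield P) = ⊤ → i ≤ 0 → 1 ≤ n → ∀ x : H i n F, x = 0

/-- Module INJ: every extension of fields induces an injective map.

Proof.  Let `x ∈ H(F)` with `map f x = 0`; by `lift`, `x` comes from `x₀ ∈ H(closure t)`, `t ⊆ F` finite.  Let
`S₁ = closure (f '' t) ≤ K` (Finset image), `x₁ ∈ H(S₁)` the image of `x₀` (restrict `f` to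
`closure t → S₁`).  Its image in `H(K)` is `map f x = 0`, so by `ker` its image in `H(closure t')` is 0, for a
finite `t' ⊆ K` with `S₁ ≤ closure t'`.  View `K` as an `F`-algebra by `f` (`f.toAlgebra`), let
`D = Algebra.adjoin F t'` and `m` a maximal ideal of `D`.  `L = D ⧸ m` is a finite extension of `F`
(`finite_of_finite_type_of_isJacobsonRing`, field structure `Ideal.Quotient.field m`).  The two ring
homomorphisms `closure t → F → L` and `closure t → S₁ → closure t' → D → L` are equal, so
`map (F → L) x = 0`, hence `x = 0` by `fin`. -/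
def S_INJ : Prop := ∀ (T : Theory.{u}) (i : ℤ) (n : ℕ) (F K : Type u) [Field F] [Field K] (f : F →+* K),
  Function.Injective (T.map i n f)

/-- Module SPEC: specialization.

Proof.  `D := adjoin A (C ∪ Z ∪ range t)`, `P := MvPolynomial J A → D` (`X j ↦ t j`) is injective, `D` is a
domain, of finite type over `A`, so over `P` (noetherian), so of finite presentation.  By Chevalley
(`PrimeSpectrum.isConstructible_range_comap`) the range of `Spec D → Spec P` is constructible, and it is
dense (`denseRange_comap_iff_ker_le_nilRadical`).  In an irreducible space every constructible set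
or its complement contains a nonempty open set (`IsConstructible` induction: true for open sets,
stable under unions and complements).  So the range contains a nonempty basic open set
`basicOpen g`, `g ≠ 0`.  (Or: generic freeness / any proof of Atiyah-Macdonald 5.23.)
For `z ∈ Z` there is a nonzero polynomial `q_z` over `adjoin k (range t)`, i.e. over
`MvPolynomial J k`, with `q_z(z) = 0`; let `l_z` be a nonzero coefficient of it.  `k` is infinite, so
there is `c : J → k` with `(g * ∏ l_z)(c) ≠ 0` (`MvPolynomial.funext_set` with `s = range (k → A)`).  The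
kernel of `P → A`, `X ↦ c`, is a maximal ideal in `basicOpen g`, so it is the contraction of a prime
of `D`, and of a maximal ideal `M` above that prime.  `D ⧸ M` is finite over `A`
(`finite_of_finite_type_of_isJacobsonRing`), so `A → D ⧸ M` is bijective; this gives `ψ : D →ₐ[A] A` with
`ψ (t j) = c j`.  For `z ∈ Z`, `ψ z` is a root of `q_z(c) ∈ k[X]`, which is nonzero since `l_z(c) ≠ 0`; so
`ψ z` is algebraic over `k`, so it is in `k`. -/
def S_SPEC : Prop := ∀ (k A Ω : Type u) [Field k] [Field A] [Field Ω] [Algebra k A] [Algebra A Ω]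
  [Algebra k Ω] [IsScalarTower k A Ω] [IsAlgClosed k] [IsAlgClosed A] (J : Type u) [Finite J]
  (t : J → Ω), AlgebraicIndependent A t → ∀ (C Z : Finset Ω),
  (∀ z ∈ Z, IsAlgebraic (Algebra.adjoin k (Set.range t)) z) →
  ∃ ψ : (Algebra.adjoin A ((C : Set Ω) ∪ (Z : Set Ω) ∪ Set.range t)) →ₐ[A] A,
    ∀ z : Algebra.adjoin A ((C : Set Ω) ∪ (Z : Set Ω) ∪ Set.range t), (z : Ω) ∈ Z →
      ψ z ∈ Set.range (algebraMap k A)

/-- Module INT: a class which is defined over `A` and over a ring that is independent of `A` over `k`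
is defined over `k`.

Proof.  `x` comes from `x₀ ∈ H(closure s)`, `s ⊆ A` finite.  Put `U = closure (s' ∪ Z) ≤ Ω`, `s'` the image of
`s` (Finset).  The images of `x₀` and of `y` in `H(U)` have the same image in `H(Ω)`, so by `ker` for the
difference they have the same image in `H(closure C)`, `C ⊆ Ω` finite, `U ≤ closure C`.  Take `ψ` from `SPEC`;
`closure C ≤ adjoin A (C ∪ Z ∪ range t)` as sets, so `ψ` restricts to a ring homomorphism
`φ : closure C → A`.  The composite `closure s → closure C → A` is the inclusion (`ψ` is `A`-linear), so the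
image of `x₀` is `x`.  The composite `closure Z → closure C → A` has its values in the image of `k`
(a subring that contains `φ Z`), so it is the composite of `ρ : closure Z → k` and `k → A`.  So
`x = map (k → A) (map ρ y)`. -/
def S_INT : Prop := S_SPEC.{u} → ∀ (T : Theory.{u}) (i : ℤ) (n : ℕ) (k A Ω : Type u) [Field k] [Field A]
  [Field Ω] [Algebra k A] [Algebra A Ω] [Algebra k Ω] [IsScalarTower k A Ω] [IsAlgClosed k]
  [IsAlgClosed A] (J : Type u) [Finite J] (t : J → Ω), AlgebraicIndependent A t →
  ∀ (x : T.H i n A) (Z : Finset Ω), (∀ z ∈ Z, IsAlgebraic (Algebra.adjoin k (Set.range t)) z) →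
  ∀ y : T.H i n (Subring.closure (Z : Set Ω)),
    T.map i n (algebraMap A Ω) x = T.map i n (Subring.closure (Z : Set Ω)).subtype y →
    ∃ z : T.H i n k, T.map i n (algebraMap k A) z = x

/-- Module COPY: independent copies.

Proof.  Let `s : ι → Ω` be a transcendence basis of `Ω` over `k` (`ι` infinite, `#κ ≤ #ι`), and `J₀ ⊆ ι` a
nonempty finite set such that all elements of `Z` are algebraic over `k(s '' J₀)` (every element of `Ω` is
algebraic over `k(s '' finite)`).  `L` = algebraic closure of `k(s '' J₀)` in `Ω`.  Since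
`#(κ × J₀) = #κ ≤ #ι` there is an injection `f : κ × J₀ → ι`.  For `a : κ` the family `j ↦ s (f (a, j))` is
algebraically independent over `k`, so there is a `k`-embedding `k(s '' J₀) → Ω`, `s j ↦ s (f (a, j))`, and
it extends to `τ a : L → Ω` (`IsAlgClosed.lift`).  For `a ∉ I` let `A` be the algebraic closure in `Ω` of
`k(s '' {f (b, j) | b ∈ I})` and `t j = s (f (a, j))`: `AlgebraicIndependent.adjoin_of_disjoint`,
`IntermediateField.algebraicIndependent_adjoin_iff`, `AlgebraicIndependent.algebraicClosure`.  `τ b x`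
is algebraic over `k(s (f (b, j)))`, so in `A`. -/
def S_COPY : Prop := ∀ (k Ω : Type u) [Field k] [Field Ω] [Algebra k Ω] [IsAlgClosed k] [IsAlgClosed Ω]
  (κ : Type u) [Infinite κ], #κ ≤ Algebra.trdeg k Ω → ∀ (Z : Finset Ω),
  ∃ (L : IntermediateField k Ω) (τ : κ → (L →ₐ[k] Ω)), (Z : Set Ω) ⊆ (L : Set Ω) ∧
    ∀ (a : κ) (I : Finset κ), a ∉ I → ∃ (A : IntermediateField k Ω) (_ : IsAlgClosed A) (J : Type u)
      (_ : Finite J) (t : J → Ω), AlgebraicIndependent A t ∧ (∀ b ∈ I, ∀ x : L, τ b x ∈ A) ∧
        ∀ x : L, IsAlgebraic (Algebra.adjoin k (Set.range t)) (τ a x)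

/-- Module EMB: a field of small degree of transcendence embeds into `Ω`.

Proof.  Transcendence bases `s : ι → K`, `s' : ι' → Ω` over `P` (`exists_isTranscendenceBasis'`), an injection
`e : ι → ι'`; `P(s) → Ω`, `s i ↦ s' (e i)`, exists since both families are algebraically independent
(fraction field of the polynomial ring), and `K` is algebraic over `P(s)`: `IsAlgClosed.lift`. -/
def S_EMB : Prop := ∀ (P : Type w) [Field P] (K Ω : Type u) [Field K] [Field Ω] [Algebra P K]
  [Algebra P Ω] [IsAlgClosed Ω], Algebra.trdeg P K ≤ Algebra.trdeg P Ω → Nonempty (K →ₐ[P] Ω)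

/-- Module TOR: the orders of the invertible matrices of finite order are bounded.

Proof.  `N = finrank ℚ W`, `C = (2 * N)!` (for `N = 0` everything is trivial).  Let `g ^ m = 1`, `0 < m`.  The minimal polynomial `μ` of `g` over
`ℚ` divides `X ^ m - 1 = ∏_{d ∣ m} Φ_d` (`Polynomial.prod_cyclotomic_eq_X_pow_sub_one`, the `Φ_d` are
irreducible (`Polynomial.cyclotomic.irreducible_rat`) and pairwise coprime).  If `Φ_d ∣ μ` then `φ(d) = deg Φ_d ≤ deg μ ≤ N`
(`LinearMap.minpoly_dvd_charpoly`).  For a prime power `p ^ e ∣ d`, `e ≥ 1`: `p ^ e ≤ 2 * φ(p ^ e) ≤ 2 * φ(d) ≤ 2 * N`, so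
`p ^ e ∣ (2 * N)!`; so `d ∣ (2 * N)! = C` and `Φ_d ∣ X ^ C - 1`.  So `μ` (squarefree, a product of
some of the `Φ_d`) divides `X ^ C - 1`. -/
def S_TOR : Prop := ∀ (W : Type u) [AddCommGroup W] [Module ℚ W] [FiniteDimensional ℚ W],
  ∃ C : ℕ, 0 < C ∧ ∀ g : Module.End ℚ W, (∃ m : ℕ, 0 < m ∧ g ^ m = 1) → g ^ C = 1

/-- Module AUT: an endomorphism of `Ω` which multiplies `s` by a root of unity `ζ`, fixes `a - s`, and under
which every element of `Ω` is periodic.

Proof.  The family `![a - s, s]` is algebraically independent (compose with the automorphism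
`X 0 ↦ X 0 - X 1`, `X 1 ↦ X 1` of the polynomial ring).  So there is a transcendence basis `B ⊆ Ω` of `Ω` over `k` with
`a - s ∈ B`, `s ∈ B` (and `a - s ≠ s`).  Let `u' : B → Ω`, `u' s = ζ s` and `u' x = x` for the others; it is algebraically
independent (compose with the automorphism of the polynomial ring which multiplies `X_s` by `ζ ≠ 0`).
`Ω` is algebraic over `MvPolynomial B k` (acting by `aeval coe`), so there is a `MvPolynomial B k`-algebra homomorphism
`σ : Ω → Ω` from this structure to the one by `aeval u'` (`IsAlgClosed.lift`); `σ x = u' x` for `x ∈ B` and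
`σ` is `k`-linear.  `(σ ^ j) (a - s) = a - s`, `(σ ^ j) s = ζ ^ j s`, which gives the formula for `a = (a - s) + s`.
`τ = σ ^ m` fixes `B`.  Let `x : Ω`; it is a root of a nonzero polynomial with coefficients in `k[B]`, and all
`(τ ^ i) x` are roots of the same polynomial; finitely many roots, so `(τ ^ i) x = (τ ^ j) x` with `i < j`, and
`τ ^ (j - i) x = x` as `τ` is injective. -/
def S_AUT : Prop := ∀ (k Ω : Type u) [Field k] [Field Ω] [Algebra k Ω] [IsAlgClosed k]
  [IsAlgClosed Ω] (a s : Ω), AlgebraicIndependent k ![a, s] → ∀ (ζ : k) (m : ℕ), 0 < m → ζ ^ m = 1 →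
  ∃ σ : Ω →ₐ[k] Ω, (∀ j : ℕ, (σ ^ j) a = (a - s) + algebraMap k Ω (ζ ^ j) * s) ∧
    ∀ x : Ω, ∃ M : ℕ, 0 < M ∧ (σ ^ M) x = x

end Pool.Agent.J6H36.BSV
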