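import Pool.Agent.J6H36.BSV.Defs

/-!
# Project BSV, second part: the projective line has no homogeneous covers

`K` algebraically closed, `F` a finite separable extension of `K(t)` such that the translations `t ↦ t + b` and the
inversion `t ↦ t⁻¹` extend to `F`; then `F = K(t)` (module P1).  The proof: with `B` = the integral closure
of `K[t]` in `F` and `B'` = the integral closure of `K[t⁻¹]`, the discriminant of `B` is a constant by the
invariance under translations, the same for `B'` by the inversion, and a reduced basis of `B` then consists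
of elements of `B ∩ B' = K`.
-/

set_option autoImplicit false

universe u w

namespace Pool.Agent.J6H36.BSV

open Polynomial IntermediateField

/-- `e` is a basis over `K[t]` of the integral closure of `K[t]` in `F` -/
structure RB (K : Type u) {F : Type u} [Field K] [Field F] [Algebra K F] (t : F) (N : ℕ)
    (e : Fin N → F) : Prop where
  int : ∀ i, IsIntegral (Algebra.adjoin K ({t} : Set F)) (e i)
  span : ∀ y : F, IsIntegral (Algebra.adjoin K ({t} : Set F)) y →
    ∃ c : Fin N → K[X], y = ∑ i, aeval t (c i) * e i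
  li : ∀ c : Fin N → K[X], ∑ i, aeval t (c i) * e i = 0 → c = 0

/-- Module P1X (existence of a basis).

Proof.  `A = Algebra.adjoin K {t}` is isomorphic to `K[X]` (`t` is transcendental), so a PID, with fraction field
`K⟮t⟯` (scoped instances `IntermediateField.algebraAdjoinAdjoin`); `F / K⟮t⟯` is finite and separable, so the integral closure of `A` in `F` is a free
`A`-module of finite rank (Mathlib: `IsIntegralClosure.module_free`, `IsIntegralClosure.isNoetherian`). -/
def S_P1X : Prop := ∀ (K F : Type u) [Field K] [Field F] [Algebra K F] (t : F), Transcendental K t →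
  FiniteDimensional K⟮t⟯ F → Algebra.IsSeparable K⟮t⟯ F → ∃ (N : ℕ) (e : Fin N → F), RB K t N e

/-- Module P1D (the discriminant is a constant).

Proof.  `e` is also a basis of `F` over `K⟮t⟯` (every `y : F` has a multiple `aeval t d * y`, `d ≠ 0`, which is integral over
`K[t]`).  The discriminant is nonzero (`Algebra.discr_not_zero_of_basis`), and it is integral over `K[t]` (`Algebra.discr_isIntegral`) and
in `K⟮t⟯`, so it is `aeval t δ`, `δ : K[X]`, `δ ≠ 0`.  Let `b : K` and `τ t = t + b`.  `τ` maps `K⟮t⟯` onto itself, so (degrees) `τ` is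
bijective on `F` and maps the integral closure `B` of `K[t]` onto itself.  So `τ ∘ e` is also a basis of `B` over
`K[t]`: `τ ∘ e = P e`, `P` a matrix over `K[X]` whose determinant is a unit, i.e. a nonzero constant.  So
`aeval (t + b) δ = τ (discr e) = discr (τ ∘ e) = (det P)² discr e` (`Algebra.discr_of_matrix_mulVec`): `δ(X + b) = u δ(X)` with
`u : K`, `u ≠ 0`.  If `δ` had a root `r` then `δ(r + b) = 0` for all `b : K`, which is impossible as `K` is
infinite and `δ ≠ 0`.  So `δ` has no root and is a constant, as `K` is algebraically closed. -/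
def S_P1D : Prop := ∀ (K F : Type u) [Field K] [Field F] [Algebra K F] [IsAlgClosed K] (t : F),
  Transcendental K t → FiniteDimensional K⟮t⟯ F → Algebra.IsSeparable K⟮t⟯ F →
  (∀ b : K, ∃ τ : F →ₐ[K] F, τ t = t + algebraMap K F b) →
  ∀ (N : ℕ) (e : Fin N → F), RB K t N e →
    ∃ c : K, c ≠ 0 ∧ Algebra.discr K⟮t⟯ e = algebraMap K K⟮t⟯ c

/-- Module P1K (an element which is integral at all points is a constant).

Proof.  The minimal polynomial of `y` over `K⟮t⟯ = K⟮t⁻¹⟯` has its coefficients in `K[t]` (integrally closed) and in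
`K[t⁻¹]`, so in `K[t] ∩ K[t⁻¹] = K`.  So `y` is algebraic over `K`, so in `K`. -/
def S_P1K : Prop := ∀ (K F : Type u) [Field K] [Field F] [Algebra K F] [IsAlgClosed K] (t : F),
  Transcendental K t → FiniteDimensional K⟮t⟯ F →
  ∀ y : F, IsIntegral (Algebra.adjoin K ({t} : Set F)) y →
    IsIntegral (Algebra.adjoin K ({t⁻¹} : Set F)) y → y ∈ Set.range (algebraMap K F)

/-- Module P1R (reduced basis), from P1K.

Proof.  `D(y, n)` : `(t⁻¹)^n * y` is integral over `K[t⁻¹]`; `D(y, n)` and `n ≤ m` give `D(y, m)`; every `y : F` which is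
algebraic over `K⟮t⟯` and integral over `K[t]` has `D(y, n)` for some `n` (from a monic equation for `y` over `K[t]`).  Among all
`(e, a)` with `RB K t N e` (`N` is fixed) and `D(e i, a i)` for all `i` choose one with `∑ a i` minimal.  Let `y = ∑ c_i e_i`,
`D(y, n)`, and suppose `m := max (natDegree c_i + a_i | c_i ≠ 0) > n`.  `S := {i | c_i ≠ 0, natDegree c_i + a_i = m}`, `λ_i` the
leading coefficient of `c_i`, `i ∈ S`.  With `z = ∑_{i ∈ S} λ_i t^(m - a_i) e_i` all terms of `y - z` are of the form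
`λ t^j e_i` with `j + a_i ≤ m - 1`, so `D(y - z, m - 1)`; and `D(y, m - 1)`; so `D(z, m - 1)`.  Let `i₀ ∈ S` with `a_{i₀}` maximal, and
`z' = ∑_{i ∈ S} λ_i t^(a_{i₀} - a_i) e_i`, so `z = t^(m - a_{i₀}) z'` and `t^(1 - a_{i₀}) z' = t^(-(m-1)) z` is integral over
`K[t⁻¹]`.  If `a_{i₀} = 0`: `t z'` and `z'` are integral over `K[t⁻¹]` and over `K[t]`, so both are in `K` by P1K; `z' ≠ 0` (`li`), so
`t ∈ K`, a contradiction.  If `a_{i₀} ≥ 1`: `D(z', a_{i₀} - 1)`; replacing `e_{i₀}` by `z'` (coefficient `λ_{i₀} ≠ 0`, a constant)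
gives again a basis, with smaller `∑ a i`: a contradiction. -/
def S_P1R : Prop := S_P1K.{u} → ∀ (K F : Type u) [Field K] [Field F] [Algebra K F] [IsAlgClosed K] (t : F),
  Transcendental K t → FiniteDimensional K⟮t⟯ F → ∀ (N : ℕ) (e₀ : Fin N → F), RB K t N e₀ →
  ∃ (e : Fin N → F) (a : Fin N → ℕ), RB K t N e ∧
    (∀ i, IsIntegral (Algebra.adjoin K ({t⁻¹} : Set F)) ((t⁻¹) ^ (a i) * e i)) ∧
    ∀ (c : Fin N → K[X]) (n : ℕ), IsIntegral (Algebra.adjoin K ({t⁻¹} : Set F))
      ((t⁻¹) ^ n * ∑ i, aeval t (c i) * e i) → ∀ i, c i ≠ 0 → (c i).natDegree + a i ≤ n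

/-- Module P1F (final step), from the other four.

Proof.  `N, e₀` from P1X, `e, a` from P1R, `discr e = c₀`, `c₀ ∈ K`, `c₀ ≠ 0`, from P1D.  Let `ι t = t⁻¹` and `f j = ι (e j)`: `ι` maps
`K⟮t⟯` onto itself, `Tr(ι x) = ι (Tr x)`, so `discr f = ι (discr e) = c₀`; `f j` is integral over `K[t⁻¹]`.  There is `d : K[X]`, `d ≠ 0`, such that all
`aeval t d * f j` are integral over `K[t]`: `aeval t d * f j = ∑_i aeval t (C j i) * e i`.  With `m = natDegree d`:
`(t⁻¹)^m * aeval t d` is in `K[t⁻¹]`, so `(t⁻¹)^m * (aeval t d * f j)` is integral over `K[t⁻¹]`; so `natDegree (C j i) + a i ≤ m` if `C j i ≠ 0`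
(P1R).  Discriminants: `d^(2N) c₀ = (det C)² c₀` (`Algebra.discr_of_matrix_mulVec`), so `(det C)² = d^(2N)` in `K[X]` and `natDegree (det C) = N m`.  But
`natDegree (det C) ≤ ∑_i (m - a i)` (expand the determinant; a column of zeros is impossible as `det C ≠ 0`, so
`a i ≤ m` for all `i`).  So `∑ a i = 0`, all `a i = 0`, and `e i` is integral over `K[t]` and over `K[t⁻¹]`: `e i ∈ K` by P1K.
By `li` there is at most one index `i`, and `F` is the span of `e` over `K⟮t⟯`; so `F = K⟮t⟯`. -/
def S_P1F : Prop := S_P1X.{u} → S_P1D.{u} → S_P1K.{u} → S_P1R.{u} →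
  ∀ (K F : Type u) [Field K] [Field F] [Algebra K F] [IsAlgClosed K] (t : F),
  Transcendental K t → FiniteDimensional K⟮t⟯ F → Algebra.IsSeparable K⟮t⟯ F →
  (∀ b : K, ∃ τ : F →ₐ[K] F, τ t = t + algebraMap K F b) → (∃ ι : F →ₐ[K] F, ι t = t⁻¹) →
  ∀ y : F, y ∈ K⟮t⟯

/-- Module AUT1: the one variable version of AUT.

Proof.  As for `S_AUT` (proved: Pool/Agent/J6H81, theorem `t_AUT`), with the transcendence basis `{t}` of `Ω` over `k`: the endomorphism
`t ↦ ζ t` of `k[t]` extends to a `k`-endomorphism `σ` of `Ω`; `σ ^ m` fixes `k[t]`, and every `x : Ω` is a root of a nonzero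
polynomial over `k[t]`, so it is periodic. -/
def S_AUT1 : Prop := ∀ (k Ω : Type u) [Field k] [Field Ω] [Algebra k Ω] [IsAlgClosed k]
  [IsAlgClosed Ω] (t : Ω), Transcendental k t →
  (∀ x : Ω, IsAlgebraic (Algebra.adjoin k ({t} : Set Ω)) x) → ∀ (ζ : k) (m : ℕ), 0 < m → ζ ^ m = 1 →
  ∃ σ : Ω →ₐ[k] Ω, (∀ j : ℕ, (σ ^ j) t = algebraMap k Ω (ζ ^ j) * t) ∧
    ∀ x : Ω, ∃ M : ℕ, 0 < M ∧ (σ ^ M) x = x

end Pool.Agent.J6H36.BSV
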