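import Pool.Agent.J6H36.BSV.Defs2

/-!
# Project BSV, third part: Galois descent, localization, normal subgroups of automorphism groups
-/

set_option autoImplicit false

universe u w

namespace Pool.Agent.J6H36.BSV

open Polynomial IntermediateField

/-- A theory of rational motivic cohomology of commutative rings, with Galois descent and the localization sequence of the
affine line over an algebraically closed field. -/
structure Theory2 extends Theory.{u} where
  /-- Galois descent -/
  gal : ∀ (i : ℤ) (n : ℕ) (E F : Type u) [Field E] [Field F] [Algebra E F] [FiniteDimensional E F]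
    [IsGalois E F] (x : H i n F), (∀ σ : F ≃ₐ[E] F, map i n (σ : F →+* F) x = x) →
    ∃ y : H i n E, map i n (algebraMap E F) y = x
  /-- a finite purely inseparable extension induces a surjective map -/
  insep : ∀ (i : ℤ) (n : ℕ) (E F : Type u) [Field E] [Field F] [Algebra E F] [FiniteDimensional E F]
    [IsPurelyInseparable E F] (x : H i n F), ∃ y : H i n E, map i n (algebraMap E F) y = x
  /-- homotopy invariance and localization for the affine line over an algebraically closed field -/
  loc : ∀ (i : ℤ) (n : ℕ) (F : Type u) [Field F] [IsAlgClosed F]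
    (x : H (i + 1) (n + 1) (RatFunc F)), (∀ a : F, res i n F a x = 0) →
    ∃ y : H (i + 1) (n + 1) F, map (i + 1) (n + 1) (algebraMap F (RatFunc F)) y = x

/-- The result of the modules P1X, P1D, P1K, P1R, P1F. -/
def S_P1 : Prop := ∀ (K F : Type u) [Field K] [Field F] [Algebra K F] [IsAlgClosed K] (t : F),
  Transcendental K t → FiniteDimensional K⟮t⟯ F → Algebra.IsSeparable K⟮t⟯ F →
  (∀ b : K, ∃ τ : F →ₐ[K] F, τ t = t + algebraMap K F b) → (∃ ι : F →ₐ[K] F, ι t = t⁻¹) →
  ∀ y : F, y ∈ K⟮t⟯

/-- Module GAL: a finite-dimensional quotient of `H(Ω)` is generated by classes over a finite Galois extension.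

Proof.  Choose `x₁, …, x_r ∈ H(Ω)` whose classes generate `H(Ω) / R`; each `x_j` comes from `closure t_j`, `t_j ⊆ Ω` finite (`T.lift`); let
`S` be the (finite) union of the `t_j`.  `q` = the exponential characteristic of `E`.  Every `z ∈ S` is algebraic over `E`, so
`z ^ q ^ m_z` is separable over `E` for some `m_z`.  `M` := the normal closure in `Ω` of `E({z ^ q ^ m_z | z ∈ S})`: finite-dimensional, normal and separable, so
Galois over `E`.  `L := adjoin M S` is finite-dimensional and purely inseparable over `M`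
(`isPurelyInseparable_adjoin_iff_pow_mem`), and contains all `closure t_j`; so `x_j` comes from `H(L)`, so from `H(M)` by `insep`: `x_j = map (M → Ω) y_j`.  Every
`x ∈ H(Ω)` is a linear combination of the `x_j` modulo `R`. -/
def S_GAL : Prop := ∀ (T : Theory2.{u}) (i : ℤ) (n : ℕ) (E Ω : Type u) [Field E] [Field Ω]
  [Algebra E Ω] [IsAlgClosed Ω] [Algebra.IsAlgebraic E Ω] (R : Submodule ℚ (T.H i n Ω))
  [FiniteDimensional ℚ (T.H i n Ω ⧸ R)],
  ∃ M : IntermediateField E Ω, FiniteDimensional E M ∧ IsGalois E M ∧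
    ∀ x : T.H i n Ω, ∃ y : T.H i n M, x - T.map i n (algebraMap M Ω) y ∈ R

/-- Module LIFT: automorphisms of `Ω` with a given value at a transcendental element.

Proof.  `Ω` is an algebraic closure of `k[X]` in two ways, by `X ↦ t` and by `X ↦ t'` (`IsAlgClosure`); `IsAlgClosure.equiv`. -/
def S_LIFT : Prop := ∀ (k Ω : Type u) [Field k] [Field Ω] [Algebra k Ω] [IsAlgClosed Ω] (t t' : Ω),
  Transcendental k t → (∀ x : Ω, IsAlgebraic (Algebra.adjoin k ({t} : Set Ω)) x) →
  Transcendental k t' → (∀ x : Ω, IsAlgebraic (Algebra.adjoin k ({t'} : Set Ω)) x) →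
  ∃ τ : Ω ≃ₐ[k] Ω, τ t = t'

/-- Module NORM: normal subgroups of `Aut(Ω / k)`, `Ω` of degree of transcendence 1 over the algebraically closed `k`, which contain the automorphisms
over some finite Galois extension of `k(t)`, contain all automorphisms over `k(t)`.

Proof.  `E = k⟮t⟯`.  `F₂ := {z ∈ Ω | z separable over E and σ z = z for all σ ∈ N with σ t = t}`, an intermediate field of `Ω / E` (and of `Ω / k`).
(1) `F₂ ≤ M`: let `z ∈ F₂`; an `M`-automorphism of `Ω` lies in `N` and fixes `t`, so it fixes `z`; `z` is separable over `M`, and every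
`M`-embedding `M(z) → Ω` extends to an automorphism of `Ω`, so `z ∈ M`.  So `F₂ / E` is finite and separable.
(2) Let `τ : Ω ≃ₐ[k] Ω` with `τ E = E` (e.g. `τ t = t + b`, or `τ t = t⁻¹`; they exist by LIFT).  Then `τ F₂ ≤ F₂`: for `z ∈ F₂`, `σ ∈ N` with `σ t = t`, the
automorphism `τ⁻¹ σ τ` lies in `N` (normal) and fixes `E` pointwise, so it fixes `z`: `σ (τ z) = τ z`; `τ z` is separable over `τ E = E`.
(3) So P1 applies to `F₂` (with `t ∈ F₂`): `F₂ = E`.
(4) Let `D` be the subgroup of `Gal(M / E)` of all restrictions of automorphisms `σ ∈ N` with `σ t = t`.  Its fixed field in `M` is contained in `F₂ = E`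
(an element of `M` is separable over `E`), so `D = Gal(M / E)`.  Let `σ : Ω ≃ₐ[k] Ω` with `σ t = t`.  There is `σ' ∈ N`, `σ' t = t`, with the same
restriction to `M`; `σ'⁻¹ σ` fixes `M` pointwise, so it is in `N`, and `σ ∈ N`. -/
def S_NORM : Prop := S_P1.{u} → S_LIFT.{u} → ∀ (k Ω : Type u) [Field k] [Field Ω] [Algebra k Ω]
  [IsAlgClosed k] [IsAlgClosed Ω] (t : Ω), Transcendental k t →
  (∀ x : Ω, IsAlgebraic (Algebra.adjoin k ({t} : Set Ω)) x) →
  ∀ (N : Subgroup (Ω ≃ₐ[k] Ω)) [N.Normal] (M : IntermediateField k⟮t⟯ Ω)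
    [FiniteDimensional k⟮t⟯ M] [IsGalois k⟮t⟯ M],
  (∀ σ : Ω ≃ₐ[k] Ω, (∀ z ∈ M, σ z = z) → σ ∈ N) → ∀ σ : Ω ≃ₐ[k] Ω, σ t = t → σ ∈ N

end Pool.Agent.J6H36.BSV
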