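import Pool.Agent.J6H36.BSV.KK

/-!
# The dimension law for infinite degree of transcendence
-/

set_option autoImplicit false

universe u w

namespace Pool.Agent.J6H36.BSV

open Cardinal

variable (T : Theory.{u}) (i : ℤ) (n : ℕ)

/-- `INT` for subrings of `Ω` -/
theorem over_int' (hI : S_INT.{u}) (hS : S_SPEC.{u}) {k Ω : Type u} [Field k] [Field Ω] [Algebra k Ω]
    [IsAlgClosed k] (A : IntermediateField k Ω) (hAc : IsAlgClosed A) (J : Type u) [Finite J]
    (t : J → Ω) (ht : AlgebraicIndependent A t) (B : Subring Ω)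
    (hB : ∀ z ∈ B, IsAlgebraic (Algebra.adjoin k (Set.range t)) z) (x : T.H i n Ω)
    (hxA : x ∈ Over T i n A.toSubring) (hxB : x ∈ Over T i n B) :
    x ∈ LinearMap.range (T.map i n (algebraMap k Ω)) := by
  obtain ⟨y, hy⟩ := mem_range_of_Over T i n (algebraMap A Ω) (algebraMap A Ω).injective
    A.toSubring (fun s hs => ⟨⟨s, hs⟩, rfl⟩) x hxA
  obtain ⟨Z, hZB, w, hw⟩ := exists_fin T i n B x hxB
  obtain ⟨z, hz⟩ := hI hS T i n k A Ω J t ht y Z (fun z hz => hB z (hZB hz)) w (hy.trans hw.symm)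
  refine ⟨z, ?_⟩
  rw [← hy, ← hz, ← T.map_comp]
  rfl

/-- The dimension law: for algebraically closed fields `k ⊆ Ω` of infinite degree of transcendence the
cokernel of `H(k) → H(Ω)` is zero or of dimension at least `trdeg k Ω`. -/
theorem law (hInj : S_INJ.{u}) (hI : S_INT.{u}) (hS : S_SPEC.{u}) (hC : S_COPY.{u})
    {k Ω : Type u} [Field k] [Field Ω] [Algebra k Ω] [IsAlgClosed k] [IsAlgClosed Ω]
    (hinf : ℵ₀ ≤ Algebra.trdeg k Ω) :
    Function.Surjective (T.map i n (algebraMap k Ω)) ∨ Algebra.trdeg k Ω ≤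
      Module.rank ℚ (T.H i n Ω ⧸ LinearMap.range (T.map i n (algebraMap k Ω))) := by
  classical
  by_cases hsurj : Function.Surjective (T.map i n (algebraMap k Ω))
  · exact Or.inl hsurj
  right
  have hv : ∃ v, v ∉ LinearMap.range (T.map i n (algebraMap k Ω)) := by
    by_contra h
    push Not at h
    exact hsurj fun x => h x
  obtain ⟨v, hv⟩ := hv
  obtain ⟨Z, y, hy⟩ := T.lift i n Ω v
  let κ : Type u := (Algebra.trdeg k Ω).out
  have hκ : #κ = Algebra.trdeg k Ω := Cardinal.mk_out _
  have hκi : Infinite κ := by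
    rw [Cardinal.infinite_iff, hκ]
    exact hinf
  obtain ⟨L, τ, hZL, hτ⟩ := hC k Ω κ hκ.le Z
  have hcl : Subring.closure (Z : Set Ω) ≤ L.toSubring := by
    rw [Subring.closure_le]
    exact hZL
  -- the class over `L`
  let g : Subring.closure (Z : Set Ω) →+* L := Subring.inclusion hcl
  let yL : T.H i n L := T.map i n g y
  have hyL : T.map i n (algebraMap L Ω) yL = v := by
    rw [← T.map_comp, ← hy]
    rfl
  have hyL2 : ∀ (a : κ) (c : T.H i n k), T.map i n (τ a : L →+* Ω) yL ≠
      T.map i n (algebraMap k Ω) c := by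
    intro a c hac
    have h1 : (τ a : L →+* Ω).comp (algebraMap k L) = algebraMap k Ω :=
      RingHom.ext fun b => (τ a).commutes b
    rw [← h1, T.map_comp] at hac
    have h2 := hInj T i n L Ω (τ a : L →+* Ω) hac
    apply hv
    refine ⟨c, ?_⟩
    rw [← hyL, h2, ← T.map_comp]
    rfl
  have hli : LinearIndependent ℚ (fun a : κ => (Submodule.Quotient.mk (T.map i n (τ a : L →+* Ω) yL) :
      T.H i n Ω ⧸ LinearMap.range (T.map i n (algebraMap k Ω)))) := by
    rw [linearIndependent_iff']
    intro s c hc b hb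
    by_contra hcb
    have h1 : ∑ a ∈ s, c a • (Submodule.Quotient.mk (T.map i n (τ a : L →+* Ω) yL) :
        T.H i n Ω ⧸ LinearMap.range (T.map i n (algebraMap k Ω))) =
        Submodule.Quotient.mk (∑ a ∈ s, c a • T.map i n (τ a : L →+* Ω) yL) := by
      rw [← Submodule.mkQ_apply, map_sum]
      rfl
    rw [h1, Submodule.Quotient.mk_eq_zero] at hc
    obtain ⟨A, hAc, J, hJ, t, ht, htA, htB⟩ := hτ b (s.erase b) (Finset.notMem_erase b s)
    -- the ring of the elements algebraic over `k(t)`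
    let B : Subring Ω := (Subalgebra.algebraicClosure (Algebra.adjoin k (Set.range t)) Ω).toSubring
    have hB : T.map i n (τ b : L →+* Ω) yL ∈ Over T i n B :=
      map_mem_Over T i n (τ b : L →+* Ω) B (fun x => htB x) yL
    have hkA : LinearMap.range (T.map i n (algebraMap k Ω)) ≤ Over T i n A.toSubring := by
      rintro _ ⟨z, rfl⟩
      exact map_mem_Over T i n (algebraMap k Ω) A.toSubring (fun x => A.algebraMap_mem x) z
    have hA : T.map i n (τ b : L →+* Ω) yL ∈ Over T i n A.toSubring := by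
      have h2 : T.map i n (τ b : L →+* Ω) yL = (c b)⁻¹ •
          ((∑ a ∈ s, c a • T.map i n (τ a : L →+* Ω) yL) -
            ∑ a ∈ s.erase b, c a • T.map i n (τ a : L →+* Ω) yL) := by
        rw [← Finset.add_sum_erase s _ hb, add_sub_cancel_right, smul_smul,
          inv_mul_cancel₀ hcb, one_smul]
      rw [h2]
      refine Submodule.smul_mem _ _ (Submodule.sub_mem _ (hkA hc) (Submodule.sum_mem _ ?_))
      intro a ha
      exact Submodule.smul_mem _ _ (map_mem_Over T i n (τ a : L →+* Ω) A.toSubring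
        (fun x => htA a ha x) yL)
    obtain ⟨z, hz⟩ := over_int' T i n hI hS A hAc J t ht B (fun z hz => hz) _ hA hB
    exact hyL2 b z hz.symm
  calc Algebra.trdeg k Ω = #κ := hκ.symm
    _ ≤ _ := hli.cardinal_le_rank

end Pool.Agent.J6H36.BSV
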