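import Pool.Agent.J6H36.BSV.Zi2
import Pool.Agent.J6H36.BSV.Law
import Pool.Agent.J6H50.BSV.Inj
import Pool.Agent.J6H72.BSV.Spec
import Pool.Agent.J6H72.BSV.Norm
import Pool.Agent.J6H35.BSV.Int
import Pool.Agent.J6H23.BSV.Copy
import Pool.Agent.J6H42.BSV.Emb
import Pool.Agent.J6H3.BSV.P1X
import Pool.Agent.J6H75.BSV.P1D
import Pool.Agent.J6H48.BSV.P1K
import Pool.Agent.J6H33.BSV.P1R
import Pool.Agent.J6H53.BSV.P1F
import Pool.Agent.J6H63.BSV.Gal
import Pool.Agent.J6H57.BSV.Lift

/-!
# Consequences for the Beilinson-Soulé vanishing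
-/

set_option autoImplicit false

universe u w

namespace Pool.Agent.J6H36.BSV

open Cardinal IntermediateField

theorem t_P1 : S_P1.{u} :=
  Pool.Agent.J6H53.BSVP1F.t_P1F Pool.Agent.J6H3.BSV.t_P1X Pool.Agent.J6H75.BSV.t_P1D
    Pool.Agent.J6H48.BSV.t_P1K Pool.Agent.J6H33.BSV.t_P1R

theorem map_inj (T : Theory2.{u}) (i : ℤ) (n : ℕ) {F K : Type u} [Field F] [Field K] (f : F →+* K) :
    Function.Injective (T.map i n f) := Pool.Agent.J6H50.BSV.t_INJ T.toTheory i n F K f

/-- finite-dimensional cokernel implies surjective -/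
theorem surj_of_finite (T : Theory2.{u}) (i : ℤ) (n : ℕ) (hn : 1 ≤ n) (k Ω : Type u) [Field k]
    [Field Ω] [Algebra k Ω] [IsAlgClosed k] [IsAlgClosed Ω]
    (hfin : Module.Finite ℚ (T.H i n Ω ⧸ LinearMap.range (T.map i n (algebraMap k Ω)))) :
    Function.Surjective (T.map i n (algebraMap k Ω)) := by
  obtain ⟨m, rfl⟩ : ∃ m, n = m + 1 := ⟨n - 1, by omega⟩
  obtain ⟨j, rfl⟩ : ∃ j : ℤ, i = j + 1 := ⟨i - 1, by ring⟩
  exact zi T j m Pool.Agent.J6H50.BSV.t_INJ Pool.Agent.J6H63.BSV.t_GAL Pool.Agent.J6H57.BSV.t_LIFT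
    Pool.Agent.J6H72.BSV.t_NORM t_P1

/-- the dimension law -/
theorem dim_law (T : Theory2.{u}) (i : ℤ) (n : ℕ) (k Ω : Type u) [Field k]
    [Field Ω] [Algebra k Ω] [IsAlgClosed k] [IsAlgClosed Ω] (hinf : ℵ₀ ≤ Algebra.trdeg k Ω) :
    Function.Surjective (T.map i n (algebraMap k Ω)) ∨ Algebra.trdeg k Ω ≤
      Module.rank ℚ (T.H i n Ω ⧸ LinearMap.range (T.map i n (algebraMap k Ω))) :=
  law T.toTheory i n Pool.Agent.J6H50.BSV.t_INJ Pool.Agent.J6H35.BSV.t_INT
    Pool.Agent.J6H72.BSV.t_SPEC Pool.Agent.J6H23.BSV.t_COPY hinf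

section prime

variable (T : Theory2.{u}) (P : Type) [Field P] (hP : (⊥ : Subfield P) = ⊤)

instance instAlgClosedAC (K : Type u) [Field K] [Algebra P K] [IsAlgClosed K] :
    IsAlgClosed (algebraicClosure P K) :=
  IsAlgClosure.isAlgClosed P (K := algebraicClosure P K)

include hP in
/-- the group of the algebraic closure of the prime field vanishes -/
theorem base_ac (i : ℤ) (n : ℕ) (hi : i ≤ 0) (hn : 1 ≤ n) (K : Type u) [Field K] [Algebra P K]
    (x : T.H i n (algebraicClosure P K)) : x = 0 :=
  T.base i n P (algebraicClosure P K) hP hi hn x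

include hP in
theorem zero_of_finite (i : ℤ) (n : ℕ) (hi : i ≤ 0) (hn : 1 ≤ n) (K : Type u) [Field K]
    [Algebra P K] [IsAlgClosed K] (hfin : Module.Finite ℚ (T.H i n K)) (x : T.H i n K) : x = 0 := by
  have h1 : Module.Finite ℚ (T.H i n K ⧸
      LinearMap.range (T.map i n (algebraMap (algebraicClosure P K) K))) := inferInstance
  obtain ⟨y, rfl⟩ := surj_of_finite T i n hn (algebraicClosure P K) K h1 x
  rw [base_ac T P hP i n hi hn K y, map_zero]

/-- reduction to algebraically closed fields of finite degree of transcendence -/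
theorem red_fg (i : ℤ) (n : ℕ)
    (h : ∀ (K : Type u) [Field K] [Algebra P K] [IsAlgClosed K], Algebra.trdeg P K < ℵ₀ →
      ∀ x : T.H i n K, x = 0) (F : Type u) [Field F] [Algebra P F] (x : T.H i n F) : x = 0 := by
  obtain ⟨t, y, rfl⟩ := T.lift i n F x
  have hle : Subring.closure (t : Set F) ≤ (IntermediateField.adjoin P (t : Set F)).toSubring := by
    rw [Subring.closure_le]
    exact IntermediateField.subset_adjoin P _
  have hfg : Algebra.EssFiniteType P (IntermediateField.adjoin P (t : Set F)) := by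
    rw [IntermediateField.essFiniteType_iff]
    exact IntermediateField.fg_adjoin_of_finite t.finite_toSet
  let y₁ : T.H i n (IntermediateField.adjoin P (t : Set F)) :=
    T.map i n (Subring.inclusion hle) y
  have hy₁ : T.map i n (algebraMap (IntermediateField.adjoin P (t : Set F)) F) y₁ =
      T.map i n (Subring.closure (t : Set F)).subtype y := by
    rw [← T.map_comp]
    rfl
  have hfin : FinTrdeg P (AlgebraicClosure (IntermediateField.adjoin P (t : Set F))) :=
    FinTrdeg.trans P (IntermediateField.adjoin P (t : Set F)) _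
  have h1 := h (AlgebraicClosure (IntermediateField.adjoin P (t : Set F)))
    (trdeg_lt_aleph0 P _) (T.map i n (algebraMap _ _) y₁)
  have h2 : y₁ = 0 := by
    apply map_inj T i n (algebraMap (IntermediateField.adjoin P (t : Set F))
      (AlgebraicClosure (IntermediateField.adjoin P (t : Set F))))
    rw [h1, map_zero]
  rw [← hy₁, h2, map_zero]

/-- vanishing in bidegree `(i + 1, n + 1)` implies vanishing in bidegree `(i, n)` -/
theorem van_step (i : ℤ) (n : ℕ)
    (h : ∀ (F : Type u) [Field F] [Algebra P F] (x : T.H (i + 1) (n + 1) F), x = 0)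
    (F : Type u) [Field F] [Algebra P F] (x : T.H i n F) : x = 0 := by
  let _ : Algebra P (RatFunc F) := ((algebraMap F (RatFunc F)).comp (algebraMap P F)).toAlgebra
  have h1 := h (RatFunc F) (T.cup i n F 0 x)
  rw [← T.res_cup_self i n F 0 x, h1, map_zero]

/-- the vanishing for `i = 0` implies the vanishing for `i ≤ 0` -/
theorem van_all (h : ∀ n : ℕ, 1 ≤ n → ∀ (F : Type u) [Field F] [Algebra P F] (x : T.H 0 n F), x = 0)
    (i : ℤ) (n : ℕ) (hi : i ≤ 0) (hn : 1 ≤ n) (F : Type u) [Field F] [Algebra P F]
    (x : T.H i n F) : x = 0 := by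
  have key : ∀ (m n : ℕ), 1 ≤ n → ∀ (F : Type u) [Field F] [Algebra P F]
      (x : T.H (-(m : ℤ)) n F), x = 0 := by
    intro m
    induction m with
    | zero => exact h
    | succ m ih =>
      intro n hn F _ _ x
      refine van_step T P (-((m + 1 : ℕ) : ℤ)) n ?_ F x
      have he : -((m + 1 : ℕ) : ℤ) + 1 = -(m : ℤ) := by push_cast; ring
      rw [he]
      intro F _ _ x
      exact ih (n + 1) (by omega) F x
  obtain ⟨m, rfl⟩ : ∃ m : ℕ, i = -(m : ℤ) := ⟨i.natAbs, by omega⟩
  exact key m n hn F x

/-- bounded dimension over the finite extensions implies vanishing -/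
theorem zero_of_bounded (hP : (⊥ : Subfield P) = ⊤) (i : ℤ) (n : ℕ) (hi : i ≤ 0) (hn : 1 ≤ n)
    (F : Type u) [Field F] [Algebra P F] (B : ℕ)
    (hB : ∀ (F' : Type u) [Field F'] [Algebra F F'] [FiniteDimensional F F'],
      Module.rank ℚ (T.H i n F') ≤ B) (x : T.H i n F) : x = 0 := by
  classical
  let _ : Algebra P (AlgebraicClosure F) := inferInstance
  have hfin : Module.Finite ℚ (T.H i n (AlgebraicClosure F)) := by
    rw [← Module.rank_lt_aleph0_iff]
    refine lt_of_le_of_lt ?_ (Cardinal.natCast_lt_aleph0 (n := B))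
    by_contra hlt
    push Not at hlt
    have h1 : ((B + 1 : ℕ) : Cardinal.{u}) ≤ Module.rank ℚ (T.H i n (AlgebraicClosure F)) := by
      rw [Nat.cast_add, Nat.cast_one]
      exact Cardinal.add_one_le_of_lt hlt
    rw [le_rank_iff_exists_linearIndependent_finset] at h1
    obtain ⟨s, hs, hli⟩ := h1
    -- all elements of `s` are defined over a finite extension
    have hfg : ∀ v : T.H i n (AlgebraicClosure F), ∃ t : Finset (AlgebraicClosure F),
        v ∈ Over T.toTheory i n (Subring.closure (t : Set (AlgebraicClosure F))) :=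
      fun v => exists_fin' T.toTheory i n v
    choose t ht using hfg
    let t' : Finset (AlgebraicClosure F) := s.biUnion t
    have hfd : FiniteDimensional F (IntermediateField.adjoin F (t' : Set (AlgebraicClosure F))) :=
      IntermediateField.finiteDimensional_adjoin fun z _ =>
        (Algebra.IsAlgebraic.isAlgebraic z).isIntegral
    have hex : ∀ v : s, ∃ w : T.H i n (IntermediateField.adjoin F (t' : Set (AlgebraicClosure F))),
        T.map i n (algebraMap (IntermediateField.adjoin F (t' : Set (AlgebraicClosure F)))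
          (AlgebraicClosure F)) w = v := by
      intro v
      refine mem_range_of_Over T.toTheory i n _
        (algebraMap (IntermediateField.adjoin F (t' : Set (AlgebraicClosure F)))
          (AlgebraicClosure F)).injective
        (Subring.closure (t v : Set (AlgebraicClosure F))) ?_ v (ht v)
      intro z hz
      have hle : Subring.closure (t v : Set (AlgebraicClosure F)) ≤
          (IntermediateField.adjoin F (t' : Set (AlgebraicClosure F))).toSubring := by
        rw [Subring.closure_le]
        intro a ha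
        apply IntermediateField.subset_adjoin F _
        rw [Finset.mem_coe, Finset.mem_biUnion]
        exact ⟨v, v.2, ha⟩
      exact ⟨⟨z, hle hz⟩, rfl⟩
    choose w hw using hex
    have hliw : LinearIndependent ℚ w := by
      apply LinearIndependent.of_comp (T.map i n
        (algebraMap (IntermediateField.adjoin F (t' : Set (AlgebraicClosure F)))
          (AlgebraicClosure F)))
      have : (T.map i n (algebraMap (IntermediateField.adjoin F (t' : Set (AlgebraicClosure F)))
          (AlgebraicClosure F))) ∘ w = fun v : s => (v : T.H i n (AlgebraicClosure F)) := by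
        funext v
        exact hw v
      rw [this]
      exact hli
    have h2 := hliw.cardinal_le_rank
    have h3 := h2.trans (hB (IntermediateField.adjoin F (t' : Set (AlgebraicClosure F))))
    rw [Cardinal.mk_coe_finset, hs] at h3
    have h4 : B + 1 ≤ B := by exact_mod_cast h3
    omega
  apply map_inj T i n (algebraMap F (AlgebraicClosure F))
  rw [zero_of_finite T P hP i n hi hn (AlgebraicClosure F) hfin
    (T.map i n (algebraMap F (AlgebraicClosure F)) x), map_zero]

/-- small dimension over one big algebraically closed field implies vanishing -/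
theorem van_of_rank (hP : (⊥ : Subfield P) = ⊤) (i : ℤ) (n : ℕ) (hi : i ≤ 0) (hn : 1 ≤ n)
    (Ω : Type u) [Field Ω] [Algebra P Ω] [IsAlgClosed Ω] (hinf : ℵ₀ ≤ Algebra.trdeg P Ω)
    (hr : Module.rank ℚ (T.H i n Ω) < Algebra.trdeg P Ω) (F : Type u) [Field F] [Algebra P F]
    (x : T.H i n F) : x = 0 := by
  have htr : Algebra.trdeg (algebraicClosure P Ω) Ω = Algebra.trdeg P Ω := by
    have h1 := trdeg_add_eq P (algebraicClosure P Ω) (A := Ω)
    have h2 : Algebra.trdeg P (algebraicClosure P Ω) = 0 := trdeg_eq_zero_iff.mpr inferInstance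
    rw [← h1, h2, zero_add]
  have hΩ : ∀ x : T.H i n Ω, x = 0 := by
    rcases dim_law T i n (algebraicClosure P Ω) Ω (by rw [htr]; exact hinf) with h | h
    · intro x
      obtain ⟨y, rfl⟩ := h x
      rw [base_ac T P hP i n hi hn Ω y, map_zero]
    · exfalso
      rw [htr] at h
      exact absurd (h.trans (rank_quotient_le _)) (not_le.mpr hr)
  refine red_fg T P i n ?_ F x
  intro K _ _ _ hK x
  obtain ⟨φ⟩ := Pool.Agent.J6H42.BSV.t_EMB P K Ω (hK.le.trans hinf)
  apply map_inj T i n (φ : K →+* Ω)
  rw [hΩ (T.map i n (φ : K →+* Ω) x), map_zero]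

/-- the transcendence degree of an uncountable algebraically closed field over the prime field -/
theorem trdeg_eq_card (hP : (⊥ : Subfield P) = ⊤) (Ω : Type u) [Field Ω] [Algebra P Ω]
    [IsAlgClosed Ω] (hΩ : ℵ₀ < #Ω) : Algebra.trdeg P Ω = #Ω := by
  have hPc : #P ≤ ℵ₀ := by
    have h1 := Subfield.cardinalMk_closure_le_max (∅ : Set P)
    rw [Subfield.closure_empty, hP] at h1
    have h2 : #(⊤ : Subfield P) = #P := Cardinal.mk_congr (Equiv.Set.univ P)
    rw [h2] at h1
    refine h1.trans ?_
    simp
  obtain ⟨s, hs⟩ := exists_isTranscendenceBasis P Ω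
  have h1 := IsAlgClosed.cardinal_eq_cardinal_transcendence_basis_of_aleph0_lt
    (Subtype.val : s → Ω) hs hPc hΩ
  have h2 := hs.cardinalMk_eq_trdeg
  rw [← h2]
  exact (Cardinal.lift_inj.mp h1).symm

/-- finite-dimensional cokernels in degree `i + 1` imply vanishing in degree `i` -/
theorem van_of_rigid (i : ℤ) (n : ℕ)
    (h : ∀ (K : Type u) [Field K] [Algebra P K] [IsAlgClosed K], Algebra.trdeg P K < ℵ₀ →
      Module.Finite ℚ (T.H (i + 1) (n + 1) K ⧸ LinearMap.range
        (T.map (i + 1) (n + 1) (algebraMap (algebraicClosure P K) K))))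
    (F : Type u) [Field F] [Algebra P F] (x : T.H i n F) : x = 0 := by
  refine red_fg T P i n ?_ F x
  intro K _ _ _ hK x
  have hf1 : FinTrdeg P K := finTrdeg_iff_trdeg.mpr hK
  have hf2 : FinTrdeg K (RatFunc K) := by
    refine ⟨⟨⊤, ?_, inferInstance⟩⟩
    rw [← RatFunc.adjoin_X]
    exact IntermediateField.fg_adjoin_of_finite (Set.finite_singleton _)
  have hf3 : FinTrdeg P (RatFunc K) := FinTrdeg.trans P K (RatFunc K)
  have hf4 : FinTrdeg P (AlgebraicClosure (RatFunc K)) := FinTrdeg.trans P (RatFunc K) _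
  have hfin := h (AlgebraicClosure (RatFunc K)) (trdeg_lt_aleph0 P _)
  let ε : RatFunc K →+* AlgebraicClosure (RatFunc K) := algebraMap _ _
  let _ : Algebra K (AlgebraicClosure (RatFunc K)) := (ε.comp (algebraMap K (RatFunc K))).toAlgebra
  have hfd : FiniteDimensional ℚ (T.H (i + 1) (n + 1) (AlgebraicClosure (RatFunc K)) ⧸
      LinearMap.range (T.map (i + 1) (n + 1) (algebraMap K (AlgebraicClosure (RatFunc K))))) := by
    have hle : LinearMap.range (T.map (i + 1) (n + 1)
        (algebraMap (algebraicClosure P (AlgebraicClosure (RatFunc K)))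
          (AlgebraicClosure (RatFunc K)))) ≤
        LinearMap.range (T.map (i + 1) (n + 1) (algebraMap K (AlgebraicClosure (RatFunc K)))) := by
      rw [← Over_range T.toTheory (i + 1) (n + 1)
        (algebraMap (algebraicClosure P (AlgebraicClosure (RatFunc K)))
          (AlgebraicClosure (RatFunc K)))
        (algebraMap (algebraicClosure P (AlgebraicClosure (RatFunc K)))
          (AlgebraicClosure (RatFunc K))).injective,
        ← Over_range T.toTheory (i + 1) (n + 1)
        (algebraMap K (AlgebraicClosure (RatFunc K)))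
        (algebraMap K (AlgebraicClosure (RatFunc K))).injective]
      apply Over_mono
      rintro _ ⟨z, rfl⟩
      have hz : IsAlgebraic P (z : AlgebraicClosure (RatFunc K)) :=
        mem_algebraicClosure_iff.mp z.2
      have hz2 : IsAlgebraic K (z : AlgebraicClosure (RatFunc K)) := by
        refine alg_of_subset (R := P) (S := K) (fun r => ⟨algebraMap P K r, rfl⟩)
          (algebraMap P _).injective (algebraMap K _).injective hz
      have h3 : (z : AlgebraicClosure (RatFunc K)) ∈
          algebraicClosure K (AlgebraicClosure (RatFunc K)) := mem_algebraicClosure_iff.mpr hz2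
      rw [(IsAlgClosed.algebraicClosure_eq_bot_iff K _).mpr inferInstance] at h3
      obtain ⟨c, hc⟩ := IntermediateField.mem_bot.mp h3
      exact ⟨c, hc⟩
    exact Module.Finite.of_surjective (Submodule.factor hle) (Submodule.factor_surjective hle)
  exact res_zero T.toTheory i n Pool.Agent.J6H50.BSV.t_INJ ε rfl x

end prime

end Pool.Agent.J6H36.BSV
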