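import Pool.Agent.J6H36.BSV.Defs

/-!
# Classes defined over a subring; algebraic elements over a subring
-/

set_option autoImplicit false

universe u w

namespace Pool.Agent.J6H36.BSV

/-- the classes of `H(Ω)` which are defined over the subring `S` -/
noncomputable def Over (T : Theory.{u}) (i : ℤ) (n : ℕ) {Ω : Type u} [CommRing Ω] (S : Subring Ω) :
    Submodule ℚ (T.H i n Ω) :=
  LinearMap.range (T.map i n S.subtype)

section OverSec

variable (T : Theory.{u}) (i : ℤ) (n : ℕ)

theorem Over_mono {Ω : Type u} [CommRing Ω] {S S' : Subring Ω} (h : S ≤ S') :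
    Over T i n S ≤ Over T i n S' := by
  rintro _ ⟨y, rfl⟩
  refine ⟨T.map i n (Subring.inclusion h) y, ?_⟩
  rw [← T.map_comp]
  rfl

theorem map_mem_Over {A Ω : Type u} [CommRing A] [CommRing Ω] (f : A →+* Ω) (S : Subring Ω)
    (h : ∀ a, f a ∈ S) (y : T.H i n A) : T.map i n f y ∈ Over T i n S := by
  refine ⟨T.map i n (f.codRestrict S h) y, ?_⟩
  rw [← T.map_comp]
  rfl

theorem mem_range_of_Over {A Ω : Type u} [CommRing A] [CommRing Ω] (f : A →+* Ω)
    (hf : Function.Injective f) (S : Subring Ω) (h : ∀ s ∈ S, s ∈ f.range) (x : T.H i n Ω)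
    (hx : x ∈ Over T i n S) : ∃ y : T.H i n A, T.map i n f y = x := by
  obtain ⟨y, rfl⟩ := hx
  have hb : Function.Bijective f.rangeRestrict :=
    ⟨fun a b hab => hf (congrArg Subtype.val hab), f.rangeRestrict_surjective⟩
  let e := RingEquiv.ofBijective f.rangeRestrict hb
  let g : S →+* A := (e.symm : f.range →+* A).comp (Subring.inclusion h)
  refine ⟨T.map i n g y, ?_⟩
  rw [← T.map_comp]
  have hg : f.comp g = S.subtype := by
    refine RingHom.ext fun s => ?_
    have := congrArg Subtype.val (e.apply_symm_apply (Subring.inclusion h s))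
    exact this
  rw [hg]

theorem Over_range {A Ω : Type u} [CommRing A] [CommRing Ω] (f : A →+* Ω)
    (hf : Function.Injective f) : Over T i n f.range = LinearMap.range (T.map i n f) := by
  apply le_antisymm
  · intro x hx
    obtain ⟨y, hy⟩ := mem_range_of_Over T i n f hf f.range (fun s hs => hs) x hx
    exact ⟨y, hy⟩
  · rintro _ ⟨y, rfl⟩
    exact map_mem_Over T i n f f.range (fun a => ⟨a, rfl⟩) y

/-- every class over `S` is defined over a finitely generated subring of `S` -/
theorem exists_fin {Ω : Type u} [CommRing Ω] (S : Subring Ω) (x : T.H i n Ω)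
    (hx : x ∈ Over T i n S) : ∃ t : Finset Ω, (t : Set Ω) ⊆ S ∧
      x ∈ Over T i n (Subring.closure (t : Set Ω)) := by
  classical
  obtain ⟨y, rfl⟩ := hx
  obtain ⟨t, z, rfl⟩ := T.lift i n S y
  refine ⟨t.image S.subtype, ?_, ?_⟩
  · intro a ha
    rw [Finset.coe_image] at ha
    obtain ⟨b, -, rfl⟩ := ha
    exact b.2
  · rw [← T.map_comp]
    apply map_mem_Over
    rintro ⟨a, ha⟩
    change (S.subtype a) ∈ _
    have : S.subtype a ∈ (Subring.closure (t : Set S)).map S.subtype := ⟨a, ha, rfl⟩
    rw [RingHom.map_closure] at this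
    rw [Finset.coe_image]
    exact this

theorem exists_fin' {Ω : Type u} [CommRing Ω] (x : T.H i n Ω) : ∃ t : Finset Ω,
      x ∈ Over T i n (Subring.closure (t : Set Ω)) := by
  obtain ⟨t, y, rfl⟩ := T.lift i n Ω x
  exact ⟨t, y, rfl⟩

/-- a homomorphism which fixes the generators fixes the class -/
theorem map_eq_of_fix {Ω : Type u} [CommRing Ω] (t : Finset Ω) (σ : Ω →+* Ω)
    (hσ : ∀ z ∈ t, σ z = z) (x : T.H i n Ω) (hx : x ∈ Over T i n (Subring.closure (t : Set Ω))) :
    T.map i n σ x = x := by
  obtain ⟨y, rfl⟩ := hx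
  rw [← T.map_comp]
  have : σ.comp (Subring.closure (t : Set Ω)).subtype = (Subring.closure (t : Set Ω)).subtype := by
    refine RingHom.ext fun z => ?_
    have h1 := RingHom.eqOn_set_closure (f := σ) (g := RingHom.id Ω) (s := (t : Set Ω))
      (fun z hz => hσ z hz)
    exact h1 z.2
  rw [this]

end OverSec

section algebraic

variable {Ω : Type u} [Field Ω]

theorem alg_of_subset {R S Ω : Type*} [CommRing R] [CommRing S] [CommRing Ω]
    [Algebra R Ω] [Algebra S Ω] (h : ∀ r : R, ∃ s : S, algebraMap S Ω s = algebraMap R Ω r)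
    (hR : Function.Injective (algebraMap R Ω))
    (hS : Function.Injective (algebraMap S Ω)) {z : Ω} (hz : IsAlgebraic R z) : IsAlgebraic S z := by
  classical
  let f : R → S := fun r => (h r).choose
  have hf : ∀ r, algebraMap S Ω (f r) = algebraMap R Ω r := fun r => (h r).choose_spec
  let g : R →+* S :=
    { toFun := f
      map_one' := hS (by rw [hf, map_one, map_one])
      map_mul' := fun a b => hS (by rw [hf, map_mul, map_mul, hf, hf])
      map_zero' := hS (by rw [hf, map_zero, map_zero])
      map_add' := fun a b => hS (by rw [hf, map_add, map_add, hf, hf]) }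
  refine hz.ringHom_of_comp_eq g (RingHom.id Ω) ?_ ?_
  · intro a b hab
    apply hR
    rw [← hf a, ← hf b]
    exact congrArg _ hab
  · refine RingHom.ext fun r => ?_
    exact hf r

/-- transitivity -/
theorem alg_trans {R S Ω : Type*} [CommRing R] [IsDomain R] [CommRing S] [Field Ω]
    [Algebra R Ω] [Algebra S Ω] (hR : Function.Injective (algebraMap R Ω))
    (hS : Function.Injective (algebraMap S Ω))
    (h : ∀ s : S, IsAlgebraic R (algebraMap S Ω s)) {z : Ω} (hz : IsAlgebraic S z) :
    IsAlgebraic R z := by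
  have : FaithfulSMul R Ω := (faithfulSMul_iff_algebraMap_injective R Ω).mpr hR
  have h1 : IsAlgebraic (Subalgebra.algebraicClosure R Ω) z := by
    refine alg_of_subset (R := S) (fun s => ⟨⟨_, h s⟩, rfl⟩) hS ?_ hz
    exact Subtype.val_injective
  exact h1.restrictScalars R

end algebraic

end Pool.Agent.J6H36.BSV
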