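import Pool.Agent.J6H36.BSV.Over

/-!
# Finite-dimensional cokernel: the case of two variables
-/

set_option autoImplicit false

universe u w

namespace Pool.Agent.J6H36.BSV

variable (T : Theory.{u}) (i : ℤ) (n : ℕ)

/-- `INT` for subrings of `Ω` -/
theorem over_int (hI : S_INT.{u}) (hS : S_SPEC.{u}) {k Ω : Type u} [Field k] [Field Ω] [Algebra k Ω]
    [IsAlgClosed k] (A : IntermediateField k Ω) [IsAlgClosed A] (J : Type u) [Finite J] (t : J → Ω)
    (ht : AlgebraicIndependent A t) (B : Subring Ω)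
    (hB : ∀ z ∈ B, IsAlgebraic (Algebra.adjoin k (Set.range t)) z) (x : T.H i n Ω)
    (hxA : x ∈ Over T i n A.toSubring) (hxB : x ∈ Over T i n B) :
    x ∈ LinearMap.range (T.map i n (algebraMap k Ω)) := by
  obtain ⟨y, hy⟩ := mem_range_of_Over T i n (algebraMap A Ω) (algebraMap A Ω).injective
    A.toSubring (fun s hs => ⟨⟨s, hs⟩, rfl⟩) x hxA
  obtain ⟨Z, hZB, w, hw⟩ := exists_fin T i n B x hxB
  obtain ⟨z, hz⟩ := hI hS T i n k A Ω J t ht y Z (fun z hz => hB z (hZB hz)) w (hy.trans hw.symm)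
  refine ⟨z, ?_⟩
  rw [← hy, ← hz, ← T.map_comp]
  rfl

section rho

variable {k Ω : Type u} [Field k] [Field Ω] [Algebra k Ω]

/-- the action of the `k`-endomorphisms of `Ω` on `H(Ω) / H(k)` -/
noncomputable def rho (σ : Ω →ₐ[k] Ω) :
    Module.End ℚ (T.H i n Ω ⧸ LinearMap.range (T.map i n (algebraMap k Ω))) :=
  Submodule.mapQ _ _ (T.map i n (σ : Ω →+* Ω)) (by
    rintro _ ⟨y, rfl⟩
    refine ⟨y, ?_⟩
    rw [← T.map_comp]
    have : (σ : Ω →+* Ω).comp (algebraMap k Ω) = algebraMap k Ω :=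
      RingHom.ext fun a => σ.commutes a
    rw [this])

theorem rho_mk (σ : Ω →ₐ[k] Ω) (x : T.H i n Ω) :
    rho T i n σ (Submodule.Quotient.mk x) = Submodule.Quotient.mk (T.map i n (σ : Ω →+* Ω) x) :=
  rfl

theorem rho_pow_mk (σ : Ω →ₐ[k] Ω) (j : ℕ) (x : T.H i n Ω) :
    (rho T i n σ ^ j) (Submodule.Quotient.mk x) =
      Submodule.Quotient.mk (T.map i n ((σ ^ j : Ω →ₐ[k] Ω) : Ω →+* Ω) x) := by
  induction j generalizing x with
  | zero =>
    rw [pow_zero, pow_zero]
    have : ((1 : Ω →ₐ[k] Ω) : Ω →+* Ω) = RingHom.id Ω := rfl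
    rw [this, T.map_id]
    rfl
  | succ j ih =>
    rw [pow_succ, Module.End.mul_apply, rho_mk, ih, ← T.map_comp]
    have : ((σ ^ j : Ω →ₐ[k] Ω) : Ω →+* Ω).comp (σ : Ω →+* Ω) =
        ((σ ^ (j + 1) : Ω →ₐ[k] Ω) : Ω →+* Ω) := by
      refine RingHom.ext fun a => ?_
      rw [pow_succ]
      rfl
    rw [this]

/-- periodicity on finite-dimensional quotients -/
theorem rho_periodic [FiniteDimensional ℚ (T.H i n Ω ⧸ LinearMap.range (T.map i n (algebraMap k Ω)))]
    (σ : Ω →ₐ[k] Ω) (hσ : ∀ x : Ω, ∃ M : ℕ, 0 < M ∧ (σ ^ M) x = x) :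
    ∃ M : ℕ, 0 < M ∧ rho T i n σ ^ M = 1 := by
  classical
  -- every vector is periodic
  have h1 : ∀ w : T.H i n Ω ⧸ LinearMap.range (T.map i n (algebraMap k Ω)),
      ∃ M : ℕ, 0 < M ∧ (rho T i n σ ^ M) w = w := by
    intro w
    obtain ⟨x, rfl⟩ := Submodule.Quotient.mk_surjective _ w
    obtain ⟨t, hx⟩ := exists_fin' T i n x
    choose M hM hMx using hσ
    have hfix : ∀ z ∈ t, (σ ^ (∏ z ∈ t, M z)) z = z := by
      intro z hz
      obtain ⟨c, hc⟩ := Finset.dvd_prod_of_mem M hz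
      rw [hc, pow_mul]
      have : ∀ c : ℕ, ((σ ^ M z) ^ c) z = z := by
        intro c
        induction c with
        | zero => rfl
        | succ c ih =>
          rw [pow_succ]
          change ((σ ^ M z) ^ c) ((σ ^ M z) z) = z
          rw [hMx, ih]
      exact this c
    refine ⟨∏ z ∈ t, M z, Finset.prod_pos fun z _ => hM z, ?_⟩
    rw [rho_pow_mk]
    have h5 : T.map i n ((σ ^ (∏ z ∈ t, M z) : Ω →ₐ[k] Ω) : Ω →+* Ω) x = x :=
      map_eq_of_fix T i n t ((σ ^ (∏ z ∈ t, M z) : Ω →ₐ[k] Ω) : Ω →+* Ω) hfix x hx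
    rw [h5]
  obtain ⟨S, hS⟩ := Module.finite_def.mp
    (inferInstance : Module.Finite ℚ (T.H i n Ω ⧸ LinearMap.range (T.map i n (algebraMap k Ω))))
  choose M hM hMx using h1
  refine ⟨∏ z ∈ S, M z, Finset.prod_pos fun z _ => hM z, ?_⟩
  refine LinearMap.ext_on hS ?_
  intro z hz
  obtain ⟨c, hc⟩ := Finset.dvd_prod_of_mem M hz
  rw [hc, pow_mul]
  have : ∀ c : ℕ, ((rho T i n σ ^ M z) ^ c) z = z := by
    intro c
    induction c with
    | zero => rfl
    | succ c ih =>
      rw [pow_succ, Module.End.mul_apply, hMx, ih]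
  rw [this c]
  rfl

end rho

theorem exists_unit_root (k : Type u) [Field k] [IsAlgClosed k] :
    ∃ ω : k, ω ≠ 1 ∧ ∃ m : ℕ, 0 < m ∧ ω ^ m = 1 := by
  by_cases h2 : (2 : k) = 0
  · obtain ⟨ω, hω⟩ := IsAlgClosed.exists_root (Polynomial.X ^ 2 + Polynomial.X + 1 : Polynomial k) (by
      have : (Polynomial.X ^ 2 + Polynomial.X + 1 : Polynomial k).degree = 2 := by
        compute_degree!
      rw [this]; decide)
    simp only [Polynomial.IsRoot.def, Polynomial.eval_add, Polynomial.eval_pow, Polynomial.eval_X,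
      Polynomial.eval_one] at hω
    refine ⟨ω, ?_, 3, by norm_num, ?_⟩
    · rintro rfl
      apply one_ne_zero (α := k)
      linear_combination hω - h2
    · linear_combination (ω - 1) * hω
  · refine ⟨-1, ?_, 2, by norm_num, by norm_num⟩
    intro h
    apply h2
    linear_combination -h

theorem ai_pair {k Ω : Type u} [Field k] [Field Ω] [Algebra k Ω] (A : IntermediateField k Ω)
    (a s : Ω) (ha : a ∈ A) (hak : Transcendental k a) (hs : Transcendental A s) :
    AlgebraicIndependent k ![a, s] := by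
  have h1 : AlgebraicIndependent k (fun _ : Unit => a) := by
    rw [algebraicIndependent_unique_type_iff]
    exact hak
  have h2 : Transcendental (Algebra.adjoin k (Set.range (fun _ : Unit => a))) s := by
    intro h
    apply hs
    refine alg_of_subset (fun r => ?_) Subtype.val_injective Subtype.val_injective h
    have hle : Algebra.adjoin k (Set.range (fun _ : Unit => a)) ≤ A.toSubalgebra := by
      rw [Algebra.adjoin_le_iff]
      rintro _ ⟨-, rfl⟩
      exact ha
    exact ⟨⟨r, hle r.2⟩, rfl⟩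
  have h3 := (h1.option_iff_transcendental s).mpr h2
  have h4 := h3.comp (![some (), none] : Fin 2 → Option Unit) (by
    intro x y hxy
    fin_cases x <;> fin_cases y <;> simp_all)
  have h5 : (fun o : Option Unit => o.elim s (fun _ => a)) ∘ (![some (), none] : Fin 2 → Option Unit)
      = ![a, s] := by
    funext j
    fin_cases j <;> rfl
  rw [h5] at h4
  exact h4

/-- Two variables: if `H(Ω)/H(k)` is finite-dimensional then the classes over the algebraic closure `A` of
`k(a)` are defined over `k`, provided that `Ω` is not algebraic over `A`. -/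
theorem two (hI : S_INT.{u}) (hS : S_SPEC.{u}) (hTor : S_TOR.{u}) (hAut : S_AUT.{u})
    {k Ω : Type u} [Field k] [Field Ω] [Algebra k Ω] [IsAlgClosed k] [IsAlgClosed Ω]
    [FiniteDimensional ℚ (T.H i n Ω ⧸ LinearMap.range (T.map i n (algebraMap k Ω)))]
    (A : IntermediateField k Ω) [IsAlgClosed A] (a : Ω) (ha : a ∈ A)
    (hA : ∀ z ∈ A, IsAlgebraic (Algebra.adjoin k {a}) z) (hak : Transcendental k a)
    (s : Ω) (hs : Transcendental A s) :
    Over T i n A.toSubring ≤ LinearMap.range (T.map i n (algebraMap k Ω)) := by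
  intro x hx
  obtain ⟨C, hC, hCtor⟩ := hTor (T.H i n Ω ⧸ LinearMap.range (T.map i n (algebraMap k Ω)))
  obtain ⟨ω, hω1, m, hm, hωm⟩ := exists_unit_root k
  obtain ⟨ζ, hζ⟩ := IsAlgClosed.exists_pow_nat_eq ω hC
  have hζm : ζ ^ (C * m) = 1 := by rw [pow_mul, hζ, hωm]
  obtain ⟨σ, hσa, hσper⟩ := hAut k Ω a s (ai_pair A a s ha hak hs) ζ (C * m)
    (Nat.mul_pos hC hm) hζm
  have h1 := hCtor (rho T i n σ) (rho_periodic T i n σ hσper)
  have hτa := hσa C
  rw [hζ] at hτa
  have hx1 : (Submodule.Quotient.mk (T.map i n ((σ ^ C : Ω →ₐ[k] Ω) : Ω →+* Ω) x) :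
      T.H i n Ω ⧸ LinearMap.range (T.map i n (algebraMap k Ω))) = Submodule.Quotient.mk x := by
    rw [← rho_pow_mk, h1]
    rfl
  rw [Submodule.Quotient.eq] at hx1
  generalize hτ : (σ ^ C : Ω →ₐ[k] Ω) = τ at hτa hx1
  -- the ring `B`
  let t : PUnit.{u + 1} → Ω := fun _ => τ a
  have hrt : Set.range t = {τ a} := by
    ext z
    constructor
    · rintro ⟨-, rfl⟩
      rfl
    · rintro rfl
      exact ⟨PUnit.unit, rfl⟩
  let B : Subring Ω := (Subalgebra.algebraicClosure (Algebra.adjoin k (Set.range t)) Ω).toSubring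
  have hBmem : ∀ z, z ∈ B ↔ IsAlgebraic (Algebra.adjoin k (Set.range t)) z := fun z => Iff.rfl
  have hxB1 : T.map i n (τ : Ω →+* Ω) x ∈ Over T i n B := by
    obtain ⟨y, rfl⟩ := hx
    rw [← T.map_comp]
    apply map_mem_Over
    rintro ⟨z, hz⟩
    rw [hBmem]
    change IsAlgebraic _ (τ z)
    have hzA := hA z hz
    have hmap : ∀ r : Algebra.adjoin k ({a} : Set Ω), τ r ∈ Algebra.adjoin k (Set.range t) := by
      intro r
      have h3 : τ r ∈ (Algebra.adjoin k ({a} : Set Ω)).map τ := ⟨r, r.2, rfl⟩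
      rw [AlgHom.map_adjoin, Set.image_singleton] at h3
      rw [hrt]
      exact h3
    refine hzA.ringHom_of_comp_eq
      (((τ : Ω →+* Ω).comp (Algebra.adjoin k ({a} : Set Ω)).subtype).codRestrict
        (Algebra.adjoin k (Set.range t)) hmap) (τ : Ω →+* Ω) ?_ ?_
    · intro p q hpq
      have := congrArg Subtype.val hpq
      exact Subtype.ext (τ.injective this)
    · rfl
  have hxB2 : LinearMap.range (T.map i n (algebraMap k Ω)) ≤ Over T i n B := by
    rintro _ ⟨y, rfl⟩
    apply map_mem_Over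
    intro c
    rw [hBmem]
    exact isAlgebraic_algebraMap (⟨algebraMap k Ω c, Subalgebra.algebraMap_mem _ c⟩ :
      Algebra.adjoin k (Set.range t))
  have hxB : x ∈ Over T i n B := by
    have : x = T.map i n (τ : Ω →+* Ω) x - (T.map i n (τ : Ω →+* Ω) x - x) := by abel
    rw [this]
    exact Submodule.sub_mem _ hxB1 (hxB2 hx1)
  have htr : Transcendental A (τ a) := by
    intro halg
    apply hs
    rw [hτa] at halg
    have h4 : IsAlgebraic A (algebraMap A Ω ⟨a, ha⟩) := isAlgebraic_algebraMap _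
    have h5 : IsAlgebraic A (((a - s) + algebraMap k Ω ω * s) - algebraMap A Ω ⟨a, ha⟩) :=
      halg.sub h4
    have h6 : ((a - s) + algebraMap k Ω ω * s) - algebraMap A Ω ⟨a, ha⟩ =
        algebraMap A Ω (algebraMap k A (ω - 1)) * s := by
      change ((a - s) + algebraMap k Ω ω * s) - a = algebraMap k Ω (ω - 1) * s
      rw [map_sub, map_one]
      ring
    rw [h6] at h5
    have h7 : s = algebraMap A Ω (algebraMap k A (ω - 1)⁻¹) *
        (algebraMap A Ω (algebraMap k A (ω - 1)) * s) := by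
      rw [← mul_assoc, ← map_mul, ← map_mul, inv_mul_cancel₀ (sub_ne_zero.mpr hω1), map_one,
        map_one, one_mul]
    rw [h7]
    exact (isAlgebraic_algebraMap _).mul h5
  have hAI : AlgebraicIndependent A t := by
    rw [algebraicIndependent_unique_type_iff]
    exact htr
  exact over_int T i n hI hS A PUnit t hAI B (fun z hz => hz) x hx hxB

end Pool.Agent.J6H36.BSV
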