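import Pool.Agent.J6H36.BSV.KK
import Pool.Agent.J6H36.BSV.Defs3

/-!
# Zero or infinite-dimensional: degree of transcendence one
-/

set_option autoImplicit false

universe u w

namespace Pool.Agent.J6H36.BSV

open IntermediateField

section res

variable (T : Theory.{u}) (i : ℤ) (n : ℕ)

/-- If the cokernel of `H^{i+1}(k, n+1) → H^{i+1}(Ω, n+1)` is finite-dimensional and `k(t)` embeds into `Ω` then
`H^i(k, n) = 0` -/
theorem res_zero (hInj : S_INJ.{u}) {k Ω : Type u} [Field k] [Field Ω] [Algebra k Ω] [Infinite k]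
    (ε : RatFunc k →+* Ω) (hε : ε.comp (algebraMap k (RatFunc k)) = algebraMap k Ω)
    [FiniteDimensional ℚ (T.H (i + 1) (n + 1) Ω ⧸
      LinearMap.range (T.map (i + 1) (n + 1) (algebraMap k Ω)))] (z : T.H i n k) : z = 0 := by
  by_contra hz
  have hli : LinearIndependent ℚ (fun a : k =>
      (Submodule.Quotient.mk (T.map (i + 1) (n + 1) ε (T.cup i n k a z)) :
        T.H (i + 1) (n + 1) Ω ⧸ LinearMap.range (T.map (i + 1) (n + 1) (algebraMap k Ω)))) := by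
    rw [linearIndependent_iff']
    intro s g hg b hb
    have h1 : ∑ a ∈ s, g a • (Submodule.Quotient.mk
        (T.map (i + 1) (n + 1) ε (T.cup i n k a z)) :
        T.H (i + 1) (n + 1) Ω ⧸ LinearMap.range (T.map (i + 1) (n + 1) (algebraMap k Ω))) =
        Submodule.Quotient.mk (T.map (i + 1) (n + 1) ε (∑ a ∈ s, g a • T.cup i n k a z)) := by
      rw [map_sum]
      simp only [map_smul]
      rw [← Submodule.mkQ_apply, map_sum]
      rfl
    rw [h1, Submodule.Quotient.mk_eq_zero] at hg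
    obtain ⟨y, hy⟩ := hg
    rw [← hε, T.map_comp] at hy
    have h2 := hInj T (i + 1) (n + 1) (RatFunc k) Ω ε hy
    have h3 := T.res_const i n k b y
    rw [h2, map_sum] at h3
    simp only [map_smul] at h3
    rw [Finset.sum_eq_single b] at h3
    · rw [T.res_cup_self] at h3
      rcases smul_eq_zero.mp h3 with h4 | h4
      · exact h4
      · exact absurd h4 hz
    · intro a _ hab
      rw [T.res_cup_ne i n k b a z hab.symm, smul_zero]
    · intro h
      exact absurd hb h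
  have := hli.finite_of_isNoetherian
  exact not_finite k

end res

section one

variable (T : Theory2.{u}) (i : ℤ) (n : ℕ)

/-- The automorphisms which act trivially on `H(Ω) / H(k)`. -/
noncomputable def NN (k Ω : Type u) [Field k] [Field Ω] [Algebra k Ω] : Subgroup (Ω ≃ₐ[k] Ω) where
  carrier := {σ | ∀ x : T.H i n Ω, T.map i n ((σ : Ω ≃+* Ω) : Ω →+* Ω) x - x ∈
    LinearMap.range (T.map i n (algebraMap k Ω))}
  mul_mem' := by
    intro σ τ hσ hτ x
    have h1 : T.map i n (((σ * τ : Ω ≃ₐ[k] Ω) : Ω ≃+* Ω) : Ω →+* Ω) x =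
        T.map i n ((σ : Ω ≃+* Ω) : Ω →+* Ω) (T.map i n ((τ : Ω ≃+* Ω) : Ω →+* Ω) x) := by
      rw [← T.map_comp]
      rfl
    rw [h1]
    have h2 := Submodule.add_mem _ (hσ (T.map i n ((τ : Ω ≃+* Ω) : Ω →+* Ω) x)) (hτ x)
    rwa [sub_add_sub_cancel] at h2
  one_mem' := by
    intro x
    have h1 : T.map i n (((1 : Ω ≃ₐ[k] Ω) : Ω ≃+* Ω) : Ω →+* Ω) x = x := T.map_id i n Ω x
    rw [h1, sub_self]
    exact Submodule.zero_mem _
  inv_mem' := by
    intro σ hσ x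
    have h1 := hσ (T.map i n (((σ⁻¹ : Ω ≃ₐ[k] Ω) : Ω ≃+* Ω) : Ω →+* Ω) x)
    rw [← T.map_comp] at h1
    have h2 : ((σ : Ω ≃+* Ω) : Ω →+* Ω).comp (((σ⁻¹ : Ω ≃ₐ[k] Ω) : Ω ≃+* Ω) : Ω →+* Ω) =
        RingHom.id Ω := by
      refine RingHom.ext fun a => ?_
      exact σ.apply_symm_apply a
    rw [h2, T.map_id] at h1
    have h3 := Submodule.neg_mem _ h1
    rwa [neg_sub] at h3

theorem mem_NN {k Ω : Type u} [Field k] [Field Ω] [Algebra k Ω] (σ : Ω ≃ₐ[k] Ω) :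
    σ ∈ NN T i n k Ω ↔ ∀ x : T.H i n Ω, T.map i n ((σ : Ω ≃+* Ω) : Ω →+* Ω) x - x ∈
      LinearMap.range (T.map i n (algebraMap k Ω)) := Iff.rfl

/-- the range is stable -/
theorem range_stable {k Ω : Type u} [Field k] [Field Ω] [Algebra k Ω] (σ : Ω ≃ₐ[k] Ω)
    (x : T.H i n Ω) (hx : x ∈ LinearMap.range (T.map i n (algebraMap k Ω))) :
    T.map i n ((σ : Ω ≃+* Ω) : Ω →+* Ω) x ∈ LinearMap.range (T.map i n (algebraMap k Ω)) := by
  obtain ⟨y, rfl⟩ := hx
  refine ⟨y, ?_⟩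
  rw [← T.map_comp]
  have : ((σ : Ω ≃+* Ω) : Ω →+* Ω).comp (algebraMap k Ω) = algebraMap k Ω :=
    RingHom.ext fun a => σ.commutes a
  rw [this]

instance NN_normal (k Ω : Type u) [Field k] [Field Ω] [Algebra k Ω] : (NN T i n k Ω).Normal where
  conj_mem := by
    intro σ hσ τ x
    have h1 := hσ (T.map i n (((τ⁻¹ : Ω ≃ₐ[k] Ω) : Ω ≃+* Ω) : Ω →+* Ω) x)
    have h2 := range_stable T i n τ _ h1
    rw [map_sub] at h2
    rw [← T.map_comp, ← T.map_comp, ← T.map_comp] at h2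
    have h3 : (((τ : Ω ≃+* Ω) : Ω →+* Ω).comp ((σ : Ω ≃+* Ω) : Ω →+* Ω)).comp
        (((τ⁻¹ : Ω ≃ₐ[k] Ω) : Ω ≃+* Ω) : Ω →+* Ω) =
        (((τ * σ * τ⁻¹ : Ω ≃ₐ[k] Ω) : Ω ≃+* Ω) : Ω →+* Ω) := rfl
    have h4 : ((τ : Ω ≃+* Ω) : Ω →+* Ω).comp (((τ⁻¹ : Ω ≃ₐ[k] Ω) : Ω ≃+* Ω) : Ω →+* Ω) =
        RingHom.id Ω := by
      refine RingHom.ext fun a => ?_
      exact τ.apply_symm_apply a
    rw [h3, h4, T.map_id] at h2
    exact h2

/-- Degree of transcendence one. -/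
theorem zi_one (hInj : S_INJ.{u}) (hGal : S_GAL.{u}) (hLift : S_LIFT.{u}) (hNorm : S_NORM.{u})
    (hP1 : S_P1.{u}) {k Ω : Type u} [Field k] [Field Ω] [Algebra k Ω] [IsAlgClosed k]
    [IsAlgClosed Ω] (t : Ω) (ht : Transcendental k t)
    (halg : ∀ x : Ω, IsAlgebraic (Algebra.adjoin k ({t} : Set Ω)) x)
    [FiniteDimensional ℚ (T.H (i + 1) (n + 1) Ω ⧸
      LinearMap.range (T.map (i + 1) (n + 1) (algebraMap k Ω)))] (x : T.H (i + 1) (n + 1) Ω) :
    x ∈ LinearMap.range (T.map (i + 1) (n + 1) (algebraMap k Ω)) := by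
  classical
  have hE : Algebra.IsAlgebraic k⟮t⟯ Ω := by
    constructor
    intro z
    refine alg_of_subset (R := Algebra.adjoin k ({t} : Set Ω)) (S := k⟮t⟯)
      (fun r => ⟨⟨r, algebra_adjoin_le_adjoin k _ r.2⟩, rfl⟩) Subtype.val_injective
      Subtype.val_injective (halg z)
  obtain ⟨M, hM1, hM2, hM3⟩ := hGal T (i + 1) (n + 1) k⟮t⟯ Ω
    (LinearMap.range (T.map (i + 1) (n + 1) (algebraMap k Ω)))
  have hN0 : ∀ σ : Ω ≃ₐ[k] Ω, (∀ z ∈ M, σ z = z) → σ ∈ NN T (i + 1) (n + 1) k Ω := by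
    intro σ hσ
    rw [mem_NN]
    intro x
    obtain ⟨y, hy⟩ := hM3 x
    have h1 := range_stable T (i + 1) (n + 1) σ _ hy
    rw [map_sub, ← T.map_comp] at h1
    have h2 : ((σ : Ω ≃+* Ω) : Ω →+* Ω).comp (algebraMap M Ω) = algebraMap M Ω := by
      refine RingHom.ext fun a => ?_
      exact hσ a a.2
    rw [h2] at h1
    have h3 := Submodule.sub_mem _ h1 hy
    rwa [sub_sub_sub_cancel_right] at h3
  have hN := hNorm hP1 hLift k Ω t ht halg (NN T (i + 1) (n + 1) k Ω) M hN0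
  obtain ⟨y, hy⟩ := hM3 x
  -- averaging over the Galois group
  have hσ : ∀ σ : M ≃ₐ[k⟮t⟯] M, T.map (i + 1) (n + 1) (algebraMap M Ω)
      (T.map (i + 1) (n + 1) ((σ : M ≃+* M) : M →+* M) y) -
      T.map (i + 1) (n + 1) (algebraMap M Ω) y ∈
        LinearMap.range (T.map (i + 1) (n + 1) (algebraMap k Ω)) := by
    intro σ
    have hclos : IsAlgClosure k⟮t⟯ Ω := ⟨inferInstance, hE⟩
    have hnorm : Normal k⟮t⟯ Ω := IsAlgClosure.normal k⟮t⟯ Ω
    let τ : Ω ≃ₐ[k] Ω := (σ.liftNormal Ω).restrictScalars k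
    have hτt : τ t = t := by
      have := (σ.liftNormal Ω).commutes (AdjoinSimple.gen k t)
      exact this
    have h1 := (mem_NN T (i + 1) (n + 1) τ).mp (hN τ hτt) (T.map (i + 1) (n + 1) (algebraMap M Ω) y)
    rw [← T.map_comp] at h1
    have h2 : ((τ : Ω ≃+* Ω) : Ω →+* Ω).comp (algebraMap M Ω) =
        (algebraMap M Ω).comp ((σ : M ≃+* M) : M →+* M) := by
      refine RingHom.ext fun a => ?_
      exact σ.liftNormal_commutes Ω a
    rw [h2, T.map_comp] at h1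
    exact h1
  have hcard : (Fintype.card (M ≃ₐ[k⟮t⟯] M) : ℚ) ≠ 0 := by
    exact_mod_cast Fintype.card_ne_zero
  let ybar : T.H (i + 1) (n + 1) M := (Fintype.card (M ≃ₐ[k⟮t⟯] M) : ℚ)⁻¹ •
    ∑ σ : M ≃ₐ[k⟮t⟯] M, T.map (i + 1) (n + 1) ((σ : M ≃+* M) : M →+* M) y
  have hinv : ∀ σ : M ≃ₐ[k⟮t⟯] M, T.map (i + 1) (n + 1) (σ : M →+* M) ybar = ybar := by
    intro σ
    rw [map_smul, map_sum]
    congr 1
    refine Fintype.sum_equiv (Equiv.mulLeft σ) _ _ ?_
    intro τ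
    rw [← T.map_comp]
    rfl
  obtain ⟨e, he⟩ := T.gal (i + 1) (n + 1) k⟮t⟯ M ybar hinv
  have h1 : T.map (i + 1) (n + 1) (algebraMap M Ω) ybar - T.map (i + 1) (n + 1) (algebraMap M Ω) y ∈
      LinearMap.range (T.map (i + 1) (n + 1) (algebraMap k Ω)) := by
    have h2 : T.map (i + 1) (n + 1) (algebraMap M Ω) ybar -
        T.map (i + 1) (n + 1) (algebraMap M Ω) y = (Fintype.card (M ≃ₐ[k⟮t⟯] M) : ℚ)⁻¹ •
          ∑ σ : M ≃ₐ[k⟮t⟯] M, (T.map (i + 1) (n + 1) (algebraMap M Ω)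
            (T.map (i + 1) (n + 1) ((σ : M ≃+* M) : M →+* M) y) -
            T.map (i + 1) (n + 1) (algebraMap M Ω) y) := by
      rw [map_smul, map_sum, Finset.sum_sub_distrib, smul_sub, Finset.sum_const,
        Finset.card_univ, ← Nat.cast_smul_eq_nsmul ℚ, smul_smul, inv_mul_cancel₀ hcard, one_smul]
    rw [h2]
    exact Submodule.smul_mem _ _ (Submodule.sum_mem _ fun σ _ => hσ σ)
  -- the residue argument
  let e' := RatFunc.algEquivOfTranscendental t ht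
  let ε : RatFunc k →+* Ω := (algebraMap k⟮t⟯ Ω).comp (e' : RatFunc k →+* k⟮t⟯)
  have hε : ε.comp (algebraMap k (RatFunc k)) = algebraMap k Ω := by
    refine RingHom.ext fun c => ?_
    change algebraMap k⟮t⟯ Ω (e' (algebraMap k (RatFunc k) c)) = _
    rw [e'.commutes]
    rfl
  have hres := res_zero T.toTheory i n hInj ε hε
  have h3 : T.map (i + 1) (n + 1) (algebraMap M Ω) ybar ∈
      LinearMap.range (T.map (i + 1) (n + 1) (algebraMap k Ω)) := by
    rw [← he, ← T.map_comp]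
    obtain ⟨w, hw⟩ := T.loc i n k (T.map (i + 1) (n + 1) (e'.symm : k⟮t⟯ →+* RatFunc k) e)
      (fun a => hres _)
    refine ⟨w, ?_⟩
    rw [← hε, T.map_comp, hw, ← T.map_comp]
    congr 1
    congr 1
    refine RingHom.ext fun a => ?_
    change algebraMap k⟮t⟯ Ω (e' (e'.symm a)) = _
    rw [e'.apply_symm_apply]
    rfl
  have h5 := Submodule.add_mem _ hy (Submodule.sub_mem _ h3 h1)
  have h6 : x - T.map (i + 1) (n + 1) (algebraMap M Ω) y +
      (T.map (i + 1) (n + 1) (algebraMap M Ω) ybar -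
        (T.map (i + 1) (n + 1) (algebraMap M Ω) ybar -
          T.map (i + 1) (n + 1) (algebraMap M Ω) y)) = x := by abel
  rwa [h6] at h5

end one

end Pool.Agent.J6H36.BSV
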