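import Pool.Agent.J6H36.BSV.Zi

/-!
# Zero or infinite-dimensional: the general case
-/

set_option autoImplicit false

universe u w

namespace Pool.Agent.J6H36.BSV

open IntermediateField

variable (T : Theory2.{u}) (i : ℤ) (n : ℕ)

/-- one step of the chain -/
theorem zi_step (hInj : S_INJ.{u}) (hGal : S_GAL.{u}) (hLift : S_LIFT.{u}) (hNorm : S_NORM.{u})
    (hP1 : S_P1.{u}) {k Ω : Type u} [Field k] [Field Ω] [Algebra k Ω] [IsAlgClosed k]
    [IsAlgClosed Ω] (b : Ω) (hb : Transcendental k b)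
    [FiniteDimensional ℚ (T.H (i + 1) (n + 1) Ω ⧸
      LinearMap.range (T.map (i + 1) (n + 1) (algebraMap k Ω)))] :
    Over T.toTheory (i + 1) (n + 1) (KK k ({b} : Set Ω)).toSubring ≤
      LinearMap.range (T.map (i + 1) (n + 1) (algebraMap k Ω)) := by
  have hinj := hInj T.toTheory (i + 1) (n + 1) (KK k ({b} : Set Ω)) Ω
    (algebraMap (KK k ({b} : Set Ω)) Ω)
  -- the quotient for `Ω₁` embeds into the quotient for `Ω`
  have hcomp : ∀ y : T.H (i + 1) (n + 1) k, T.map (i + 1) (n + 1) (algebraMap (KK k ({b} : Set Ω)) Ω)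
      (T.map (i + 1) (n + 1) (algebraMap k (KK k ({b} : Set Ω))) y) =
      T.map (i + 1) (n + 1) (algebraMap k Ω) y := by
    intro y
    rw [← T.map_comp]
    rfl
  let φ : (T.H (i + 1) (n + 1) (KK k ({b} : Set Ω)) ⧸
      LinearMap.range (T.map (i + 1) (n + 1) (algebraMap k (KK k ({b} : Set Ω))))) →ₗ[ℚ]
      (T.H (i + 1) (n + 1) Ω ⧸ LinearMap.range (T.map (i + 1) (n + 1) (algebraMap k Ω))) :=
    Submodule.mapQ _ _ (T.map (i + 1) (n + 1) (algebraMap (KK k ({b} : Set Ω)) Ω)) (by
      rintro _ ⟨y, rfl⟩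
      exact ⟨y, (hcomp y).symm⟩)
  have hφ : Function.Injective φ := by
    rw [injective_iff_map_eq_zero]
    intro w hw
    obtain ⟨x, rfl⟩ := Submodule.Quotient.mk_surjective _ w
    have h1 : (Submodule.Quotient.mk (T.map (i + 1) (n + 1) (algebraMap (KK k ({b} : Set Ω)) Ω) x) :
        T.H (i + 1) (n + 1) Ω ⧸ LinearMap.range (T.map (i + 1) (n + 1) (algebraMap k Ω))) = 0 := hw
    rw [Submodule.Quotient.mk_eq_zero] at h1 ⊢
    obtain ⟨y, hy⟩ := h1
    refine ⟨y, ?_⟩
    apply hinj
    rw [hcomp, hy]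
  have hfd : FiniteDimensional ℚ (T.H (i + 1) (n + 1) (KK k ({b} : Set Ω)) ⧸
      LinearMap.range (T.map (i + 1) (n + 1) (algebraMap k (KK k ({b} : Set Ω))))) :=
    Module.Finite.of_injective φ hφ
  -- the element `b` of `Ω₁`
  have hbm : b ∈ KK k ({b} : Set Ω) := subset_KK k _ (Set.mem_singleton b)
  have hbt : Transcendental k (⟨b, hbm⟩ : KK k ({b} : Set Ω)) := by
    intro h
    apply hb
    have := h.algebraMap (A := Ω)
    exact this
  have halg : ∀ x : KK k ({b} : Set Ω), IsAlgebraic (Algebra.adjoin k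
      ({(⟨b, hbm⟩ : KK k ({b} : Set Ω))} : Set (KK k ({b} : Set Ω)))) x := by
    intro x
    have h1 := (mem_KK k ({b} : Set Ω) (x : Ω)).mp x.2
    have h2 : IsAlgebraic (Algebra.adjoin k
      ({(⟨b, hbm⟩ : KK k ({b} : Set Ω))} : Set (KK k ({b} : Set Ω)))) (x : Ω) := by
      refine alg_of_subset (R := Algebra.adjoin k ({b} : Set Ω)) (S := Algebra.adjoin k
        ({(⟨b, hbm⟩ : KK k ({b} : Set Ω))} : Set (KK k ({b} : Set Ω)))) (fun r => ?_)
        Subtype.val_injective ?_ h1
      · have h3 : (Algebra.adjoin k ({(⟨b, hbm⟩ : KK k ({b} : Set Ω))} :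
            Set (KK k ({b} : Set Ω)))).map (KK k ({b} : Set Ω)).val = Algebra.adjoin k ({b} : Set Ω) := by
          rw [AlgHom.map_adjoin, Set.image_singleton]
          rfl
        have h4 : (r : Ω) ∈ (Algebra.adjoin k ({(⟨b, hbm⟩ : KK k ({b} : Set Ω))} :
            Set (KK k ({b} : Set Ω)))).map (KK k ({b} : Set Ω)).val := h3.symm ▸ r.2
        obtain ⟨s, hs, hs'⟩ := h4
        exact ⟨⟨s, hs⟩, hs'⟩
      · intro p q hpq
        exact Subtype.ext (Subtype.ext hpq)
    obtain ⟨p, hp, hp'⟩ := h2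
    refine ⟨p, hp, ?_⟩
    apply (algebraMap (KK k ({b} : Set Ω)) Ω).injective
    rw [map_zero, ← hp']
    exact (Polynomial.aeval_algebraMap_apply Ω x p).symm
  have h := zi_one T i n hInj hGal hLift hNorm hP1 (⟨b, hbm⟩ : KK k ({b} : Set Ω)) hbt halg
  intro x hx
  obtain ⟨y, rfl⟩ := mem_range_of_Over T.toTheory (i + 1) (n + 1)
    (algebraMap (KK k ({b} : Set Ω)) Ω) (algebraMap (KK k ({b} : Set Ω)) Ω).injective
    (KK k ({b} : Set Ω)).toSubring (fun s hs => ⟨⟨s, hs⟩, rfl⟩) x hx
  obtain ⟨z, rfl⟩ := h y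
  exact ⟨z, (hcomp z).symm⟩

/-- the chain -/
theorem zi_chain (hInj : S_INJ.{u}) (hGal : S_GAL.{u}) (hLift : S_LIFT.{u}) (hNorm : S_NORM.{u})
    (hP1 : S_P1.{u}) {k Ω : Type u} [Field k] [Field Ω] [Algebra k Ω] [IsAlgClosed k]
    [IsAlgClosed Ω]
    [FiniteDimensional ℚ (T.H (i + 1) (n + 1) Ω ⧸
      LinearMap.range (T.map (i + 1) (n + 1) (algebraMap k Ω)))] (t : Finset Ω) :
    Over T.toTheory (i + 1) (n + 1) (KK k (t : Set Ω)).toSubring ≤
      LinearMap.range (T.map (i + 1) (n + 1) (algebraMap k Ω)) := by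
  classical
  induction t using Finset.induction_on with
  | empty =>
    rw [← Over_range T.toTheory (i + 1) (n + 1) (algebraMap k Ω) (algebraMap k Ω).injective]
    apply Over_mono
    intro z hz
    have hz1 : IsAlgebraic (Algebra.adjoin k ((∅ : Finset Ω) : Set Ω)) z := (mem_KK k _ z).mp hz
    have hz2 : IsAlgebraic k z := by
      refine alg_trans (algebraMap k Ω).injective Subtype.val_injective (fun s => ?_) hz1
      have hs : (s : Ω) ∈ Algebra.adjoin k (∅ : Set Ω) := by
        rw [← Finset.coe_empty]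
        exact s.2
      rw [Algebra.adjoin_empty, Algebra.mem_bot] at hs
      obtain ⟨c, hc⟩ := hs
      change IsAlgebraic k (s : Ω)
      rw [← hc]
      exact isAlgebraic_algebraMap c
    have h3 : z ∈ algebraicClosure k Ω := mem_algebraicClosure_iff.mpr hz2
    rw [(IsAlgClosed.algebraicClosure_eq_bot_iff k Ω).mpr inferInstance] at h3
    obtain ⟨c, hc⟩ := IntermediateField.mem_bot.mp h3
    exact ⟨c, hc⟩
  | insert b t hbt ih1 =>
    have hsub : (t : Set Ω) ⊆ ((insert b t : Finset Ω) : Set Ω) := by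
      rw [Finset.coe_insert]
      exact Set.subset_insert _ _
    have hR1 : LinearMap.range (T.map (i + 1) (n + 1) (algebraMap (KK k (t : Set Ω)) Ω)) =
        Over T.toTheory (i + 1) (n + 1) (KK k (t : Set Ω)).toSubring := by
      rw [← Over_range T.toTheory (i + 1) (n + 1) (algebraMap (KK k (t : Set Ω)) Ω)
        (algebraMap (KK k (t : Set Ω)) Ω).injective]
      congr 1
      ext z
      constructor
      · rintro ⟨y, rfl⟩
        exact y.2
      · intro hz
        exact ⟨⟨z, hz⟩, rfl⟩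
    have hR2 : LinearMap.range (T.map (i + 1) (n + 1) (algebraMap k Ω)) ≤
        LinearMap.range (T.map (i + 1) (n + 1) (algebraMap (KK k (t : Set Ω)) Ω)) := by
      rintro _ ⟨y, rfl⟩
      refine ⟨T.map (i + 1) (n + 1) (algebraMap k (KK k (t : Set Ω))) y, ?_⟩
      rw [← T.map_comp]
      rfl
    have hR3 : LinearMap.range (T.map (i + 1) (n + 1) (algebraMap (KK k (t : Set Ω)) Ω)) =
        LinearMap.range (T.map (i + 1) (n + 1) (algebraMap k Ω)) := le_antisymm (hR1 ▸ ih1) hR2
    by_cases hb : b ∈ KK k (t : Set Ω)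
    · refine le_trans (Over_mono T.toTheory (i + 1) (n + 1) ?_) ih1
      have : KK k ((insert b t : Finset Ω) : Set Ω) ≤ KK k (t : Set Ω) := by
        apply KK_le
        rw [Finset.coe_insert]
        intro z hz
        rcases hz with rfl | hz
        · exact hb
        · exact subset_KK k _ hz
      exact fun z hz => this hz
    · have hfd : FiniteDimensional ℚ (T.H (i + 1) (n + 1) Ω ⧸
          LinearMap.range (T.map (i + 1) (n + 1) (algebraMap (KK k (t : Set Ω)) Ω))) := by
        rw [hR3]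
        infer_instance
      have hbtr : Transcendental (KK k (t : Set Ω)) b := by
        intro h
        apply hb
        rw [mem_KK]
        exact alg_of_KK k _ h
      have hle : Over T.toTheory (i + 1) (n + 1) (KK k ((insert b t : Finset Ω) : Set Ω)).toSubring ≤
          Over T.toTheory (i + 1) (n + 1) (KK (KK k (t : Set Ω)) ({b} : Set Ω)).toSubring := by
        apply Over_mono
        intro z hz
        have hz' : z ∈ KK k (insert b (t : Set Ω)) := by
          rw [← Finset.coe_insert]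
          exact hz
        exact mem_KK_tower k (KK k (t : Set Ω)) (t : Set Ω) (subset_KK k _) b z hz'
      refine le_trans hle ?_
      rw [← hR3]
      exact zi_step T i n hInj hGal hLift hNorm hP1 b hbtr

/-- Zero or infinite-dimensional. -/
theorem zi (hInj : S_INJ.{u}) (hGal : S_GAL.{u}) (hLift : S_LIFT.{u}) (hNorm : S_NORM.{u})
    (hP1 : S_P1.{u}) {k Ω : Type u} [Field k] [Field Ω] [Algebra k Ω] [IsAlgClosed k]
    [IsAlgClosed Ω]
    [FiniteDimensional ℚ (T.H (i + 1) (n + 1) Ω ⧸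
      LinearMap.range (T.map (i + 1) (n + 1) (algebraMap k Ω)))] :
    Function.Surjective (T.map (i + 1) (n + 1) (algebraMap k Ω)) := by
  intro x
  obtain ⟨t, ht⟩ := exists_fin' T.toTheory (i + 1) (n + 1) x
  have h1 : Over T.toTheory (i + 1) (n + 1) (Subring.closure (t : Set Ω)) ≤
      Over T.toTheory (i + 1) (n + 1) (KK k (t : Set Ω)).toSubring := by
    apply Over_mono
    rw [Subring.closure_le]
    exact subset_KK k _
  obtain ⟨y, hy⟩ := zi_chain T i n hInj hGal hLift hNorm hP1 t (h1 ht)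
  exact ⟨y, hy⟩

end Pool.Agent.J6H36.BSV
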